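import Pool.Agent.H48.PR.IntH

/-!
# The integrated inequality with two different coefficients

As `intH` of H48/PR/IntH (proof of helper29), with the coefficient `U` of `GMg` and `V` of `GEg`, `|V - U|` of small mass.
-/

set_option autoImplicit false

open MeasureTheory Set Filter Topology Pool.Agent.H25.Kin Pool.Agent.H48.PL Pool.Agent.H48.PD
open Pool.Agent.H82.BK Pool.Agent.H82.CM Pool.Agent.H48.PR
open scoped ENNReal

namespace Pool.Agent.H48.PS

variable {d : ℕ} {γ s C Ca cb : ℝ} {b : ℝ → ℝ}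

private lemma iuv_jb (v : Vec d) (k : ℕ) : jb v ^ (2 * k) = (1 + nsq v) ^ k := by
  rw [pow_mul]
  congr 1
  unfold jb
  exact Real.sq_sqrt (by linarith [sq_nonneg' v])

private lemma iuv_len {γ : ℝ} (h0 : 0 ≤ γ) (h2 : γ ≤ 2) (m : Vec d) : len m ^ γ ≤ 1 + nsq m := by
  have hl := len_nonneg m
  have h3 := len_sq m
  have hn := sq_nonneg' m
  rcases le_total (len m) 1 with h | h
  · have := Real.rpow_le_one hl h h0
    linarith
  · have h4 := Real.rpow_le_rpow_of_exponent_le h h2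
    rw [Real.rpow_two, h3] at h4
    linarith

/-- the geometry of slow velocities -/
private lemma iuv_slow {δ a₁ : ℝ} (hδ : 0 < δ) (hδ4 : δ ≤ 1 / 4) (ha : 4 ≤ a₁) {v m : Vec d}
    (h : SlowR δ a₁ v (v - m)) :
    Real.sqrt (1 + nsq v) / 2 ≤ len m ∧ len m ≤ 2 * Real.sqrt (1 + nsq v) := by
  obtain ⟨h1, h2⟩ := h
  have hv := sq_nonneg' v
  set r := Real.sqrt (1 + nsq v) with hr
  have hr0 : 0 ≤ r := Real.sqrt_nonneg _
  have hr2 : r ^ 2 = 1 + nsq v := Real.sq_sqrt (by linarith)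
  have hz := len_sq (v - m)
  have hz0 := len_nonneg (v - m)
  have hvl := len_sq v
  have hv0 := len_nonneg v
  have hm0 := len_nonneg m
  have hd2 : δ ^ 2 ≤ 1 / 16 := by nlinarith
  have k1 : len (v - m) ≤ r / 4 := by
    refine abs_le_of_sq_le_sq' ?_ (by positivity) |>.2
    have : δ ^ 2 * (1 + nsq v) ≤ 1 / 16 * (1 + nsq v) := mul_le_mul_of_nonneg_right hd2 (by linarith)
    nlinarith
  have k2 : len v ≤ r := by
    refine abs_le_of_sq_le_sq' ?_ hr0 |>.2
    linarith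
  have k3 : 3 / 4 * r ≤ len v := by
    refine abs_le_of_sq_le_sq' ?_ hv0 |>.2
    nlinarith
  have k4 := len_le_add_sub v (v - m)
  rw [sub_sub_cancel] at k4
  have k5 := len_sub_le v (v - m)
  rw [sub_sub_cancel] at k5
  constructor <;> linarith

/-- the geometry off the slow velocities -/
private lemma iuv_off {δ a₁ : ℝ} (hδ : 0 < δ) (ha : 4 ≤ a₁) {v m : Vec d}
    (h : ¬ SlowR δ a₁ v (v - m)) :
    1 + nsq v ≤ (a₁ + 1 / δ ^ 2) * (1 + nsq (v - m)) := by
  have hv := sq_nonneg' v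
  have hz := sq_nonneg' (v - m)
  have hd : 0 < δ ^ 2 := by positivity
  have hdi : 0 < 1 / δ ^ 2 := by positivity
  by_cases h1 : a₁ ≤ 1 + nsq v
  · have h2 : δ ^ 2 * (1 + nsq v) < nsq (v - m) := by
      by_contra h3
      exact h ⟨h1, not_lt.1 h3⟩
    have h4 : 1 + nsq v ≤ 1 / δ ^ 2 * nsq (v - m) := by
      rw [one_div, inv_mul_eq_div, le_div_iff₀ hd]
      linarith
    have h5 : 0 ≤ a₁ * (1 + nsq (v - m)) := by positivity
    nlinarith
  · have h6 : 0 ≤ 1 / δ ^ 2 * (1 + nsq (v - m)) := by positivity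
    have h7 : 0 ≤ a₁ * nsq (v - m) := by positivity
    nlinarith

private lemma iuv_off2 (h0 : 0 ≤ γ) (h2 : γ ≤ 2) (p : ℕ) {C₂ : ℝ} (hC : 0 ≤ C₂) {v m : Vec d}
    (h : 1 + nsq v ≤ C₂ * (1 + nsq (v - m))) :
    len m ^ γ * (1 + nsq m) ≤
      (2 * (C₂ + 1)) ^ 2 * C₂ ^ p * Wp p v * (1 + nsq (v - m)) ^ (p + 2) := by
  have hv := sq_nonneg' v
  have hz := sq_nonneg' (v - m)
  have hm := sq_nonneg' m
  have hl := iuv_len h0 h2 m
  have h3 := nsq_par v (v - m)
  have h4 := sq_nonneg' (v + (v - m))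
  rw [sub_sub_cancel] at h3
  have k1 : 1 + nsq m ≤ 2 * (C₂ + 1) * (1 + nsq (v - m)) := by nlinarith
  have k2 : 1 ≤ Wp p v * (C₂ ^ p * (1 + nsq (v - m)) ^ p) := by
    calc (1 : ℝ) = Wp p v * (1 + nsq v) ^ p := (Wp_mul p v).symm
      _ ≤ Wp p v * (C₂ * (1 + nsq (v - m))) ^ p :=
          mul_le_mul_of_nonneg_left (pow_le_pow_left₀ (by linarith) h p) (Wp_pos p v).le
      _ = _ := by rw [mul_pow]
  have k3 : len m ^ γ * (1 + nsq m) ≤ (2 * (C₂ + 1) * (1 + nsq (v - m))) ^ 2 := by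
    rw [pow_two]
    exact mul_le_mul (hl.trans k1) k1 (by linarith) (by positivity)
  have hW := (Wp_pos p v).le
  calc len m ^ γ * (1 + nsq m) ≤ (2 * (C₂ + 1) * (1 + nsq (v - m))) ^ 2 * 1 := by
        rw [mul_one]; exact k3
    _ ≤ (2 * (C₂ + 1) * (1 + nsq (v - m))) ^ 2 *
        (Wp p v * (C₂ ^ p * (1 + nsq (v - m)) ^ p)) :=
        mul_le_mul_of_nonneg_left k2 (by positivity)
    _ = _ := by rw [pow_add]; ring

private lemma iuv_meas {δ a₁ : ℝ} (v : Vec d) :
    MeasurableSet {m : Vec d | SlowR δ a₁ v (v - m)} := by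
  have h1 : Measurable fun m : Vec d => nsq (v - m) :=
    (continuous_sq.comp (continuous_const.sub continuous_id)).measurable
  have e : {m : Vec d | SlowR δ a₁ v (v - m)} = {m : Vec d | a₁ ≤ 1 + nsq v} ∩
      {m : Vec d | nsq (v - m) ≤ δ ^ 2 * (1 + nsq v)} := by
    ext m
    rfl
  rw [e]
  exact (MeasurableSet.const _).inter (measurableSet_le h1 measurable_const)

private lemma iuv_absorb {α : Type*} [MeasurableSpace α] {μ : Measure α}
    {X Y lH lD : α → ℝ≥0∞} {c e : ℝ≥0∞} (hlH : Measurable lH) (hlD : Measurable lD)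
    (h : ∀ᵐ m ∂μ, X m + c * lH m ≤ Y m + lD m * e)
    (h1 : (∫⁻ m, lD m ∂μ) * e ≤ c * ∫⁻ m, lH m ∂μ) (h2 : c * ∫⁻ m, lH m ∂μ ≠ ⊤) :
    ∫⁻ m, X m ∂μ ≤ ∫⁻ m, Y m ∂μ := by
  have h3 : (∫⁻ m, X m ∂μ) + c * ∫⁻ m, lH m ∂μ ≤ (∫⁻ m, Y m ∂μ) + c * ∫⁻ m, lH m ∂μ := by
    calc (∫⁻ m, X m ∂μ) + c * ∫⁻ m, lH m ∂μ = ∫⁻ m, (X m + c * lH m) ∂μ := by
          rw [lintegral_add_right _ (hlH.const_mul c), lintegral_const_mul _ hlH]
      _ ≤ ∫⁻ m, (Y m + lD m * e) ∂μ := lintegral_mono_ae h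
      _ = (∫⁻ m, Y m ∂μ) + (∫⁻ m, lD m ∂μ) * e := by
          rw [lintegral_add_right _ (hlD.mul_const e), lintegral_mul_const _ hlD]
      _ ≤ _ := add_le_add le_rfl h1
  exact (ENNReal.add_le_add_iff_right h2).1 h3

private lemma iuv_cvS (v : Vec d) {φ : Vec d → ℝ≥0∞} (hφ : Measurable φ) {S : Set (Vec d)}
    (hS : MeasurableSet S) :
    ∫⁻ m in {m : Vec d | v - m ∈ S}, φ (v - m) = ∫⁻ z in S, φ z :=
  (Measure.measurePreserving_sub_left volume v).setLIntegral_comp_preimage hS hφ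

private lemma iuv_cv (v : Vec d) {φ : Vec d → ℝ≥0∞} (hφ : Measurable φ) :
    ∫⁻ m, φ (v - m) = ∫⁻ z, φ z :=
  (Measure.measurePreserving_sub_left volume v).lintegral_comp hφ

/-- the real inequality for the constants -/
private lemma iuv_real {r γ κ K W ε₁ m₁ : ℝ} (h2 : γ ≤ 2) (hr : 0 < r) (hκ : 0 < κ)
    (hW : 0 < W) (hε : ε₁ ≤ m₁ / 2) (hK : 16 * K * ε₁ ≤ κ * (m₁ / 2)) (hK0 : 0 ≤ K)
    (hε0 : 0 ≤ ε₁) :
    (2 * r) ^ γ * ε₁ * (K * W) ≤ κ * W * ((r / 2) ^ γ * (m₁ - ε₁)) := by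
  have e : (2 * r) ^ γ = 4 ^ γ * (r / 2) ^ γ := by
    rw [← Real.mul_rpow (by norm_num) (by positivity)]
    congr 1
    ring
  have h4 : (4 : ℝ) ^ γ ≤ 16 := by
    calc (4 : ℝ) ^ γ ≤ 4 ^ (2 : ℝ) := Real.rpow_le_rpow_of_exponent_le (by norm_num) h2
      _ = 16 := by norm_num
  have hρ : 0 < (r / 2) ^ γ := Real.rpow_pos_of_pos (by positivity) _
  rw [e]
  calc 4 ^ γ * (r / 2) ^ γ * ε₁ * (K * W) = 4 ^ γ * ((r / 2) ^ γ * ε₁ * (K * W)) := by ring
    _ ≤ 16 * ((r / 2) ^ γ * ε₁ * (K * W)) := mul_le_mul_of_nonneg_right h4 (by positivity)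
    _ = (r / 2) ^ γ * W * (16 * K * ε₁) := by ring
    _ ≤ (r / 2) ^ γ * W * (κ * (m₁ - ε₁)) := by
        refine mul_le_mul_of_nonneg_left (hK.trans ?_) (by positivity)
        exact mul_le_mul_of_nonneg_left (by linarith) hκ.le
    _ = _ := by ring

theorem intUV (HL : HypL d γ s b C Ca cb) (h0 : 0 ≤ γ) (hs : 2 * s < 1) {p : ℕ} (hp : d + 10 ≤ p)
    (Cl : ℕ → ℝ) (R₁ : ℝ) {m₁ : ℝ} (hm : 0 < m₁) : ∃ ε₁ > 0, ∃ K : ℝ, 0 ≤ K ∧
    ∀ U V : Vec d → ℝ, FB Cl U → FB Cl V → ∀ v : Vec d,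
      m₁ ≤ ∫ z in {z : Vec d | nsq z ≤ R₁ ^ 2}, U z → ∫ z, |V z - U z| ≤ ε₁ →
      ∀ ε : ℝ, 0 < ε → ε ≤ 1 / 64 →
      ∫⁻ m, (ENNReal.ofReal (len m ^ γ * U (v - m)) * GMg γ b ε (Wp p) univ v m +
          ENNReal.ofReal (len m ^ γ * V (v - m)) * GEg γ b ε (Wp p) (RS v) v m) ≤
        (∫⁻ m, ENNReal.ofReal (len m ^ γ * U (v - m)) *
            (ENNReal.ofReal (Wp p v) * BB b ε (dir m))) + ENNReal.ofReal (K * Wp p v) := by
  classical
  obtain ⟨δ, hδ, hδ4, a₀, ha₀, κ, hκ, K, hK, hslo⟩ := slo HL h0 hs hp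
  obtain ⟨M, hM0, hM⟩ := mom_le d Cl (2 * (p + 2))
  have hγ2 := HL.H.g2
  have hd1 := HL.H.hd1
  have : Nonempty (Fin d) := ⟨⟨0, hd1⟩⟩
  obtain ⟨a₁, ha₁⟩ : ∃ a₁ : ℝ, a₁ = max a₀ (R₁ ^ 2 / δ ^ 2) := ⟨_, rfl⟩
  have ha₁0 : a₀ ≤ a₁ := by rw [ha₁]; exact le_max_left _ _
  have ha₁R : R₁ ^ 2 ≤ δ ^ 2 * a₁ := by
    have : R₁ ^ 2 / δ ^ 2 ≤ a₁ := by rw [ha₁]; exact le_max_right _ _
    rw [div_le_iff₀ (by positivity)] at this
    linarith
  have ha₁4 : 4 ≤ a₁ := ha₀.trans ha₁0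
  obtain ⟨C₂, hC₂⟩ : ∃ C₂ : ℝ, C₂ = a₁ + 1 / δ ^ 2 := ⟨_, rfl⟩
  have hC₂0 : 0 ≤ C₂ := by rw [hC₂]; positivity
  obtain ⟨ε₁, hε₁⟩ : ∃ ε₁ : ℝ, ε₁ = min (m₁ / 2) (κ * m₁ / (32 * (K + 1))) := ⟨_, rfl⟩
  have hε₁0 : 0 < ε₁ := by rw [hε₁]; exact lt_min (by positivity) (by positivity)
  have hε₁m : ε₁ ≤ m₁ / 2 := by rw [hε₁]; exact min_le_left _ _
  have hε₁K : 16 * K * ε₁ ≤ κ * (m₁ / 2) := by
    have h1 : ε₁ ≤ κ * m₁ / (32 * (K + 1)) := by rw [hε₁]; exact min_le_right _ _
    rw [le_div_iff₀ (by positivity)] at h1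
    nlinarith
  obtain ⟨K'', hK''⟩ : ∃ K'' : ℝ, K'' = 2 * K * ((2 * (C₂ + 1)) ^ 2 * C₂ ^ p) := ⟨_, rfl⟩
  have hK''0 : 0 ≤ K'' := by rw [hK'']; positivity
  refine ⟨ε₁, hε₁0, K'' * (2 * M), by positivity, ?_⟩
  intro U V hU hV v hUm hD ε hε hε1
  have hUc := hU.nice.cont
  have hVc := hV.nice.cont
  have hU0 := hU.nonneg
  have hV0 := hV.nonneg
  have hUi : Integrable U := hU.nice.rd.integrable hUc.aestronglyMeasurable
  have hVi : Integrable V := hV.nice.rd.integrable hVc.aestronglyMeasurable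
  have hDi : Integrable fun z => |V z - U z| := (hVi.sub hUi).abs
  have hW0 : 0 < Wp p v := Wp_pos p v
  have hW1 : Wp p v ≤ 1 := Wp_le_one p v
  have hv := sq_nonneg' v
  have hAm : MeasurableSet {m : Vec d | SlowR δ a₁ v (v - m)} := iuv_meas v
  have hlen : Measurable fun m : Vec d => len m ^ γ := continuous_len.measurable.pow_const γ
  have hsub : Continuous fun m : Vec d => v - m := continuous_const.sub continuous_id
  have hlH : Measurable fun m : Vec d =>
      ENNReal.ofReal (len m ^ γ * U (v - m)) :=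
    (hlen.mul (hUc.comp hsub).measurable).ennreal_ofReal
  have hlD : Measurable fun m : Vec d =>
      ENNReal.ofReal (len m ^ γ * |V (v - m) - U (v - m)|) :=
    (hlen.mul ((hVc.comp hsub).sub (hUc.comp hsub)).abs.measurable).ennreal_ofReal
  have hne : ∀ᵐ m : Vec d, m ≠ 0 := by
    rw [ae_iff]
    simp
  have hln : ∀ m : Vec d, 0 ≤ len m ^ γ := fun m => Real.rpow_nonneg (len_nonneg m) γ
  -- slow velocities
  have partA : ∫⁻ m in {m : Vec d | SlowR δ a₁ v (v - m)},
      (ENNReal.ofReal (len m ^ γ * U (v - m)) * GMg γ b ε (Wp p) univ v m +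
        ENNReal.ofReal (len m ^ γ * V (v - m)) * GEg γ b ε (Wp p) (RS v) v m) ≤
      ∫⁻ m in {m : Vec d | SlowR δ a₁ v (v - m)},
        ENNReal.ofReal (len m ^ γ * U (v - m)) *
          (ENNReal.ofReal (Wp p v) * BB b ε (dir m)) := by
    by_cases ha : a₁ ≤ 1 + nsq v
    swap
    · have hemp : {m : Vec d | SlowR δ a₁ v (v - m)} = ∅ := by
        ext m
        simp only [mem_ofPred_eq, mem_empty_iff_false, iff_false]
        exact fun h => ha h.1
      rw [hemp]
      simp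
    set r := Real.sqrt (1 + nsq v) with hr
    have hr0 : 0 < r := Real.sqrt_pos.2 (by linarith)
    have e1 : ∫⁻ z, ENNReal.ofReal |V z - U z| ≤ ENNReal.ofReal ε₁ := by
      rw [← ofReal_integral_eq_lintegral_ofReal hDi (ae_of_all _ fun z => abs_nonneg _)]
      exact ENNReal.ofReal_le_ofReal hD
    have mD : Measurable fun z : Vec d => ENNReal.ofReal |V z - U z| :=
      (hVc.sub hUc).abs.measurable.ennreal_ofReal
    have mU : Measurable fun z : Vec d => ENNReal.ofReal (U z) := hUc.measurable.ennreal_ofReal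
    have up : ∀ m ∈ {m : Vec d | SlowR δ a₁ v (v - m)}, len m ^ γ ≤ (2 * r) ^ γ := fun m hm =>
      Real.rpow_le_rpow (len_nonneg m) (iuv_slow hδ hδ4 ha₁4 hm).2 h0
    have lo : ∀ m ∈ {m : Vec d | SlowR δ a₁ v (v - m)}, (r / 2) ^ γ ≤ len m ^ γ := fun m hm =>
      Real.rpow_le_rpow (by positivity) (iuv_slow hδ hδ4 ha₁4 hm).1 h0
    have h2r : 0 ≤ (2 * r) ^ γ := Real.rpow_nonneg (by positivity) _
    have hr2 : 0 ≤ (r / 2) ^ γ := Real.rpow_nonneg (by positivity) _
    have uD : ∫⁻ m in {m : Vec d | SlowR δ a₁ v (v - m)},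
        ENNReal.ofReal (len m ^ γ * |V (v - m) - U (v - m)|) ≤
        ENNReal.ofReal ((2 * r) ^ γ) * ENNReal.ofReal ε₁ := by
      calc ∫⁻ m in {m : Vec d | SlowR δ a₁ v (v - m)},
            ENNReal.ofReal (len m ^ γ * |V (v - m) - U (v - m)|)
          ≤ ∫⁻ m in {m : Vec d | SlowR δ a₁ v (v - m)},
            ENNReal.ofReal ((2 * r) ^ γ) * ENNReal.ofReal |V (v - m) - U (v - m)| := by
            refine setLIntegral_mono' hAm fun m hm => ?_
            rw [← ENNReal.ofReal_mul h2r]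
            exact ENNReal.ofReal_le_ofReal
              (mul_le_mul_of_nonneg_right (up m hm) (abs_nonneg _))
        _ ≤ ∫⁻ m, ENNReal.ofReal ((2 * r) ^ γ) * ENNReal.ofReal |V (v - m) - U (v - m)| :=
            setLIntegral_le_lintegral _ _
        _ = ENNReal.ofReal ((2 * r) ^ γ) * ∫⁻ z, ENNReal.ofReal |V z - U z| := by
            rw [lintegral_const_mul' _ _ ENNReal.ofReal_ne_top]
            exact congrArg _ (iuv_cv v mD)
        _ ≤ _ := mul_le_mul_right e1 _
    have fH : ∫⁻ m in {m : Vec d | SlowR δ a₁ v (v - m)},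
        ENNReal.ofReal (len m ^ γ * U (v - m)) ≤
        ENNReal.ofReal ((2 * r) ^ γ) * ∫⁻ z, ENNReal.ofReal (U z) := by
      calc ∫⁻ m in {m : Vec d | SlowR δ a₁ v (v - m)},
            ENNReal.ofReal (len m ^ γ * U (v - m))
          ≤ ∫⁻ m in {m : Vec d | SlowR δ a₁ v (v - m)},
            ENNReal.ofReal ((2 * r) ^ γ) * ENNReal.ofReal (U (v - m)) := by
            refine setLIntegral_mono' hAm fun m hm => ?_
            rw [← ENNReal.ofReal_mul h2r]
            exact ENNReal.ofReal_le_ofReal (mul_le_mul_of_nonneg_right (up m hm) (hU0 _))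
        _ ≤ ∫⁻ m, ENNReal.ofReal ((2 * r) ^ γ) * ENNReal.ofReal (U (v - m)) :=
            setLIntegral_le_lintegral _ _
        _ = ENNReal.ofReal ((2 * r) ^ γ) * ∫⁻ z, ENNReal.ofReal (U z) := by
            rw [lintegral_const_mul' _ _ ENNReal.ofReal_ne_top]
            exact congrArg _ (iuv_cv v mU)
    have hUfin : ∫⁻ z, ENNReal.ofReal (U z) ≠ ⊤ := by
      rw [← ofReal_integral_eq_lintegral_ofReal hUi (ae_of_all _ hU0)]
      exact ENNReal.ofReal_ne_top
    have lH : ENNReal.ofReal ((r / 2) ^ γ) * ENNReal.ofReal (m₁ - ε₁) ≤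
        ∫⁻ m in {m : Vec d | SlowR δ a₁ v (v - m)},
          ENNReal.ofReal (len m ^ γ * U (v - m)) := by
      have hS : MeasurableSet {z : Vec d | nsq z ≤ R₁ ^ 2} :=
        (isClosed_le continuous_sq continuous_const).measurableSet
      have hBA : {m : Vec d | v - m ∈ {z : Vec d | nsq z ≤ R₁ ^ 2}} ⊆
          {m : Vec d | SlowR δ a₁ v (v - m)} := by
        intro m hm
        refine ⟨ha, ?_⟩
        have h1 : nsq (v - m) ≤ R₁ ^ 2 := hm
        have h2 : δ ^ 2 * a₁ ≤ δ ^ 2 * (1 + nsq v) := mul_le_mul_of_nonneg_left ha (sq_nonneg _)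
        linarith
      have hBm : MeasurableSet {m : Vec d | v - m ∈ {z : Vec d | nsq z ≤ R₁ ^ 2}} :=
        hsub.measurable hS
      calc ENNReal.ofReal ((r / 2) ^ γ) * ENNReal.ofReal (m₁ - ε₁)
          ≤ ENNReal.ofReal ((r / 2) ^ γ) *
            ∫⁻ z in {z : Vec d | nsq z ≤ R₁ ^ 2}, ENNReal.ofReal (U z) := by
            refine mul_le_mul_right ?_ _
            rw [← ofReal_integral_eq_lintegral_ofReal hUi.integrableOn (ae_of_all _ hU0)]
            exact ENNReal.ofReal_le_ofReal (by linarith)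
        _ = ∫⁻ m in {m : Vec d | v - m ∈ {z : Vec d | nsq z ≤ R₁ ^ 2}},
            ENNReal.ofReal ((r / 2) ^ γ) * ENNReal.ofReal (U (v - m)) := by
            rw [lintegral_const_mul' _ _ ENNReal.ofReal_ne_top]
            exact congrArg _ (iuv_cvS v mU hS).symm
        _ ≤ ∫⁻ m in {m : Vec d | v - m ∈ {z : Vec d | nsq z ≤ R₁ ^ 2}},
            ENNReal.ofReal (len m ^ γ * U (v - m)) := by
            refine setLIntegral_mono' hBm fun m hm => ?_
            rw [← ENNReal.ofReal_mul hr2]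
            exact ENNReal.ofReal_le_ofReal
              (mul_le_mul_of_nonneg_right (lo m (hBA hm)) (hU0 _))
        _ ≤ _ := lintegral_mono_set hBA
    refine iuv_absorb (c := ENNReal.ofReal (κ * Wp p v)) (e := ENNReal.ofReal (K * Wp p v))
      hlH hlD ?_ ?_ ?_
    · filter_upwards [ae_restrict_of_ae hne, ae_restrict_mem hAm] with m hm0 hmA
      obtain ⟨s1, s2, -⟩ := hslo v m hm0 ε hε hε1
      have s3 := s2 ⟨ha₁0.trans hmA.1, hmA.2⟩
      have s4 : ENNReal.ofReal (len m ^ γ * V (v - m)) ≤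
          ENNReal.ofReal (len m ^ γ * U (v - m)) +
          ENNReal.ofReal (len m ^ γ * |V (v - m) - U (v - m)|) := by
        refine le_trans (ENNReal.ofReal_le_ofReal ?_) ENNReal.ofReal_add_le
        rw [← mul_add]
        refine mul_le_mul_of_nonneg_left ?_ (hln m)
        linarith [le_abs_self (V (v - m) - U (v - m))]
      generalize ENNReal.ofReal (len m ^ γ * V (v - m)) = lG at s4 ⊢
      generalize ENNReal.ofReal (len m ^ γ * U (v - m)) = lH' at s4 ⊢
      generalize ENNReal.ofReal (len m ^ γ * |V (v - m) - U (v - m)|) = lD' at s4 ⊢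
      generalize GMg γ b ε (Wp p) univ v m = gM at s3 ⊢
      generalize GEg γ b ε (Wp p) (RS v) v m = gE at s1 s3 ⊢
      generalize ENNReal.ofReal (Wp p v) * BB b ε (dir m) = wB at s3 ⊢
      calc lH' * gM + lG * gE + ENNReal.ofReal (κ * Wp p v) * lH'
          ≤ lH' * gM + (lH' + lD') * gE + ENNReal.ofReal (κ * Wp p v) * lH' := by gcongr
        _ = lH' * (gM + gE + ENNReal.ofReal (κ * Wp p v)) + lD' * gE := by ring
        _ ≤ lH' * wB + lD' * ENNReal.ofReal (K * Wp p v) := by gcongr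
    · calc (∫⁻ m in {m : Vec d | SlowR δ a₁ v (v - m)},
            ENNReal.ofReal (len m ^ γ * |V (v - m) - U (v - m)|)) * ENNReal.ofReal (K * Wp p v)
          ≤ ENNReal.ofReal ((2 * r) ^ γ) * ENNReal.ofReal ε₁ * ENNReal.ofReal (K * Wp p v) := by
            gcongr
        _ = ENNReal.ofReal ((2 * r) ^ γ * ε₁ * (K * Wp p v)) := by
            rw [← ENNReal.ofReal_mul h2r, ← ENNReal.ofReal_mul (by positivity)]
        _ ≤ ENNReal.ofReal (κ * Wp p v * ((r / 2) ^ γ * (m₁ - ε₁))) :=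
            ENNReal.ofReal_le_ofReal (iuv_real hγ2 hr0 hκ hW0 hε₁m hε₁K hK hε₁0.le)
        _ = ENNReal.ofReal (κ * Wp p v) *
            (ENNReal.ofReal ((r / 2) ^ γ) * ENNReal.ofReal (m₁ - ε₁)) := by
            rw [← ENNReal.ofReal_mul hr2, ← ENNReal.ofReal_mul (by positivity)]
        _ ≤ _ := by gcongr
    · exact ENNReal.mul_ne_top ENNReal.ofReal_ne_top
        (ne_top_of_le_ne_top (ENNReal.mul_ne_top ENNReal.ofReal_ne_top hUfin) fH)
  -- the other velocities
  have mJ : Measurable fun z : Vec d => ENNReal.ofReal ((U z + V z) * jb z ^ (2 * (p + 2))) := by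
    have hjb : Continuous (jb : Vec d → ℝ) := by
      unfold jb
      exact (continuous_const.add continuous_sq).sqrt
    exact ((hUc.add hVc).mul (hjb.pow _)).measurable.ennreal_ofReal
  have mR : Measurable fun m : Vec d => ENNReal.ofReal (K'' * Wp p v) *
      ENNReal.ofReal ((U (v - m) + V (v - m)) * jb (v - m) ^ (2 * (p + 2))) :=
    (mJ.comp hsub.measurable).const_mul _
  have partB : ∫⁻ m in {m : Vec d | SlowR δ a₁ v (v - m)}ᶜ,
      (ENNReal.ofReal (len m ^ γ * U (v - m)) * GMg γ b ε (Wp p) univ v m +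
        ENNReal.ofReal (len m ^ γ * V (v - m)) * GEg γ b ε (Wp p) (RS v) v m) ≤
      (∫⁻ m in {m : Vec d | SlowR δ a₁ v (v - m)}ᶜ,
        ENNReal.ofReal (len m ^ γ * U (v - m)) *
          (ENNReal.ofReal (Wp p v) * BB b ε (dir m))) +
        ENNReal.ofReal (K'' * (2 * M) * Wp p v) := by
    calc ∫⁻ m in {m : Vec d | SlowR δ a₁ v (v - m)}ᶜ,
        (ENNReal.ofReal (len m ^ γ * U (v - m)) * GMg γ b ε (Wp p) univ v m +
          ENNReal.ofReal (len m ^ γ * V (v - m)) * GEg γ b ε (Wp p) (RS v) v m)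
        ≤ ∫⁻ m in {m : Vec d | SlowR δ a₁ v (v - m)}ᶜ,
          (ENNReal.ofReal (len m ^ γ * U (v - m)) *
            (ENNReal.ofReal (Wp p v) * BB b ε (dir m)) + ENNReal.ofReal (K'' * Wp p v) *
            ENNReal.ofReal ((U (v - m) + V (v - m)) * jb (v - m) ^ (2 * (p + 2)))) := by
          refine lintegral_mono_ae ?_
          filter_upwards [ae_restrict_of_ae hne, ae_restrict_mem hAm.compl] with m hm0 hmA
          obtain ⟨s1, -, s3⟩ := hslo v m hm0 ε hε hε1
          have hnm := sq_nonneg' m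
          have o1 := iuv_off hδ ha₁4 (v := v) (m := m) hmA
          rw [← hC₂] at o1
          have o2 := iuv_off2 h0 hγ2 p hC₂0 o1
          have u0 := hU0 (v - m)
          have v0 := hV0 (v - m)
          have s4 : ENNReal.ofReal (len m ^ γ * U (v - m)) * ENNReal.ofReal (K * (1 + nsq m)) +
              ENNReal.ofReal (len m ^ γ * V (v - m)) * ENNReal.ofReal (K * Wp p v) ≤
              ENNReal.ofReal (K'' * Wp p v) *
                ENNReal.ofReal ((U (v - m) + V (v - m)) * jb (v - m) ^ (2 * (p + 2))) := by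
            rw [← ENNReal.ofReal_mul (mul_nonneg (hln m) u0),
              ← ENNReal.ofReal_mul (mul_nonneg (hln m) v0),
              ← ENNReal.ofReal_add (mul_nonneg (mul_nonneg (hln m) u0) (by positivity))
                (mul_nonneg (mul_nonneg (hln m) v0) (by positivity)),
              ← ENNReal.ofReal_mul (by positivity)]
            refine ENNReal.ofReal_le_ofReal ?_
            rw [iuv_jb, hK'']
            have g1 : K * Wp p v ≤ K * (1 + nsq m) :=
              mul_le_mul_of_nonneg_left (by linarith) hK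
            calc len m ^ γ * U (v - m) * (K * (1 + nsq m)) + len m ^ γ * V (v - m) * (K * Wp p v)
                ≤ len m ^ γ * U (v - m) * (K * (1 + nsq m)) +
                  len m ^ γ * V (v - m) * (K * (1 + nsq m)) :=
                  add_le_add le_rfl (mul_le_mul_of_nonneg_left g1 (mul_nonneg (hln m) v0))
              _ = K * (U (v - m) + V (v - m)) * (len m ^ γ * (1 + nsq m)) := by ring
              _ ≤ K * (U (v - m) + V (v - m)) * ((2 * (C₂ + 1)) ^ 2 * C₂ ^ p * Wp p v *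
                    (1 + nsq (v - m)) ^ (p + 2)) :=
                  mul_le_mul_of_nonneg_left o2 (by positivity)
              _ ≤ _ := by
                  have g2 : 0 ≤ K * ((2 * (C₂ + 1)) ^ 2 * C₂ ^ p) * Wp p v *
                      ((U (v - m) + V (v - m)) * (1 + nsq (v - m)) ^ (p + 2)) := by
                    have := sq_nonneg' (v - m)
                    positivity
                  linarith
          generalize ENNReal.ofReal (K'' * Wp p v) *
            ENNReal.ofReal ((U (v - m) + V (v - m)) * jb (v - m) ^ (2 * (p + 2))) = R at s4 ⊢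
          generalize ENNReal.ofReal (len m ^ γ * V (v - m)) = lV at s4 ⊢
          generalize ENNReal.ofReal (len m ^ γ * U (v - m)) = lU at s4 ⊢
          generalize GMg γ b ε (Wp p) univ v m = gM at s3 ⊢
          generalize GEg γ b ε (Wp p) (RS v) v m = gE at s1 ⊢
          generalize ENNReal.ofReal (Wp p v) * BB b ε (dir m) = wB at s3 ⊢
          calc lU * gM + lV * gE
              ≤ lU * (wB + ENNReal.ofReal (K * (1 + nsq m))) +
                lV * ENNReal.ofReal (K * Wp p v) := by gcongr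
            _ = lU * wB + (lU * ENNReal.ofReal (K * (1 + nsq m)) +
                lV * ENNReal.ofReal (K * Wp p v)) := by ring
            _ ≤ lU * wB + R := by gcongr
      _ = (∫⁻ m in {m : Vec d | SlowR δ a₁ v (v - m)}ᶜ,
          ENNReal.ofReal (len m ^ γ * U (v - m)) *
            (ENNReal.ofReal (Wp p v) * BB b ε (dir m))) +
          ∫⁻ m in {m : Vec d | SlowR δ a₁ v (v - m)}ᶜ, ENNReal.ofReal (K'' * Wp p v) *
            ENNReal.ofReal ((U (v - m) + V (v - m)) * jb (v - m) ^ (2 * (p + 2))) :=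
          lintegral_add_right _ mR
      _ ≤ _ := by
          refine add_le_add le_rfl ?_
          refine (setLIntegral_le_lintegral _ _).trans ?_
          rw [lintegral_const_mul' _ _ ENNReal.ofReal_ne_top]
          have e2 : ∫⁻ m : Vec d, ENNReal.ofReal
              ((U (v - m) + V (v - m)) * jb (v - m) ^ (2 * (p + 2))) =
              ∫⁻ z : Vec d, ENNReal.ofReal ((U z + V z) * jb z ^ (2 * (p + 2))) := iuv_cv v mJ
          rw [e2]
          obtain ⟨i1, i2⟩ := hM U hU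
          obtain ⟨i3, i4⟩ := hM V hV
          have i5 : Integrable fun z : Vec d => (U z + V z) * jb z ^ (2 * (p + 2)) := by
            refine (i1.add i3).congr (ae_of_all _ fun z => ?_)
            simp only [Pi.add_apply]
            ring
          have i6 : ∫ z : Vec d, (U z + V z) * jb z ^ (2 * (p + 2)) ≤ 2 * M := by
            have e3 : ∫ z : Vec d, (U z + V z) * jb z ^ (2 * (p + 2)) =
                (∫ z, U z * jb z ^ (2 * (p + 2))) + ∫ z, V z * jb z ^ (2 * (p + 2)) := by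
              rw [← integral_add i1 i3]
              refine integral_congr_ae (ae_of_all _ fun z => ?_)
              simp only
              ring
            linarith
          rw [← ofReal_integral_eq_lintegral_ofReal i5 (ae_of_all _ fun z =>
            mul_nonneg (add_nonneg (hU0 z) (hV0 z)) (pow_nonneg (Real.sqrt_nonneg _) _)),
            ← ENNReal.ofReal_mul (by positivity)]
          refine ENNReal.ofReal_le_ofReal ?_
          calc K'' * Wp p v * ∫ z, (U z + V z) * jb z ^ (2 * (p + 2))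
              ≤ K'' * Wp p v * (2 * M) := mul_le_mul_of_nonneg_left i6 (by positivity)
            _ = _ := by ring
  rw [← lintegral_add_compl _ hAm, ← lintegral_add_compl (fun m : Vec d =>
    ENNReal.ofReal (len m ^ γ * U (v - m)) *
      (ENNReal.ofReal (Wp p v) * BB b ε (dir m))) hAm, add_assoc]
  exact add_le_add partA partB

end Pool.Agent.H48.PS
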