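import Pool.Agent.H48.PS.Defs

/-!
# Module PtS: the pointwise inequality for the stability estimate

`D = G - F`, `z`, `v' = v+h`. `G(z)G(v') - F(z)F(v') = G(z)D(v') + D(z)F(v')`, so
`G(z)[G(v')-qG(v)] - F(z)[F(v')-qF(v)] = G(z)[D(v')-qD(v)] + D(z)[F(v')-qF(v)]`.
* first statement (`D(v) = Λ W(v)`): `G(z)[D(v')-qD(v)] ≤ G(z)[Λ W(v') - qΛ W(v)]`. `D(z)[F(v')-qF(v)] = D(z)(F(v')-F(v)) + (1-q)D(z)F(v)`, `|D(z)| ≤ Λ W(z)`, `F(v) ≤ K₁ W_{p+2}(v)` (`FB`). If `(z,v') ∈ RS v`: `hol` and `W_{p+2}(v') ≤ 16^(p+2) W_{p+2}(v)` (see module Pt of H48/PR: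
  on `RS v`: `1+|v'|² ≥ (1+|v|²)/16`). If `(z,v') ∉ RS v`: `D(z)(F(v')-F(v)) ≤ Λ W(z)(F(v')+F(v))`, and `|h|² ≥ (1+|v|²)/4 ≥ 1/4` there, so `min 1 (len h)^α ≥ 1/2` and `F(v) ≤ K₁ W_{p+2}(v) ≤ 2K₁ W_{p+2}(v) min^α`.
* second statement (`-D(v) = Λ W(v)`): the same with `D` replaced by `-D` in `F(z)[F(v')-qF(v)] - G(z)[G(v')-qG(v)] = G(z)[(-D)(v')-q(-D)(v)] + (-D)(z)[F(v')-qF(v)]`.
-/

set_option autoImplicit false

open MeasureTheory Set Filter Topology Pool.Agent.H25.Kin Pool.Agent.H48.PL Pool.Agent.H48.PD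
open Pool.Agent.H82.BK Pool.Agent.H82.CM Pool.Agent.H48.PR

namespace Pool.Agent.H48.PS

variable {d : ℕ}

private lemma ptS_F (Cl : ℕ → ℝ) (p : ℕ) {F : Vec d → ℝ} (hF : FB Cl F) (v : Vec d) :
    F v ≤ ((d : ℝ) + 1) ^ (p + 2) * |Cl (2 * (p + 2))| * Wp (p + 2) v := by
  have h1 := hF.le (2 * (p + 2)) v
  have h2 : F v = F v * (1 + nsq v) ^ (p + 2) * Wp (p + 2) v := by
    rw [mul_assoc, mul_comm ((1 + nsq v) ^ (p + 2)), Wp_mul, mul_one]
  rw [h2]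
  refine mul_le_mul_of_nonneg_right ?_ (Wp_pos _ _).le
  have h3 : (1 + nsq v) ^ (p + 2) ≤ ((d : ℝ) + 1) ^ (p + 2) * (1 + ‖v‖) ^ (2 * (p + 2)) := by
    rw [pow_mul, ← mul_pow]
    exact pow_le_pow_left₀ (by linarith [sq_nonneg' v]) (one_add_sq_le v) _
  have hd : (0 : ℝ) ≤ (d : ℝ) + 1 := by positivity
  calc F v * (1 + nsq v) ^ (p + 2)
      ≤ F v * (((d : ℝ) + 1) ^ (p + 2) * (1 + ‖v‖) ^ (2 * (p + 2))) :=
        mul_le_mul_of_nonneg_left h3 (hF.nonneg v)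
    _ = ((d : ℝ) + 1) ^ (p + 2) * ((1 + ‖v‖) ^ (2 * (p + 2)) * F v) := by ring
    _ ≤ ((d : ℝ) + 1) ^ (p + 2) * |Cl (2 * (p + 2))| :=
        mul_le_mul_of_nonneg_left (h1.trans (le_abs_self _)) (pow_nonneg hd _)

private lemma ptS_W (p : ℕ) {v v' : Vec d} (h : (1 + nsq v) / 4 ≤ 1 + nsq v') :
    Wp (p + 2) v' ≤ 4 ^ (p + 2) * Wp (p + 2) v := by
  unfold Wp
  have hv := sq_nonneg' v
  have hv' := sq_nonneg' v'
  have h1 : ((1 + nsq v) / 4) ^ (p + 2) ≤ (1 + nsq v') ^ (p + 2) :=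
    pow_le_pow_left₀ (by positivity) h _
  have h2 : (0 : ℝ) < ((1 + nsq v) / 4) ^ (p + 2) := by positivity
  calc ((1 + nsq v') ^ (p + 2))⁻¹ ≤ (((1 + nsq v) / 4) ^ (p + 2))⁻¹ := inv_anti₀ h2 h1
    _ = 4 ^ (p + 2) * ((1 + nsq v) ^ (p + 2))⁻¹ := by
        rw [div_pow, inv_div, div_eq_mul_inv]

private lemma ptS_reg {v z h : Vec d} (hr : (z, v + h) ∈ RS v) :
    (1 + nsq v) / 4 ≤ 1 + nsq (v + h) := by
  have h1 := hr.1
  have hv := sq_nonneg' v
  have hv' := sq_nonneg' (v + h)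
  by_cases h2 : nsq (v + h) < (1 + nsq v) / 4
  · have h3 : nsq h < (1 + nsq v) / 4 := by
      by_contra h4
      push Not at h4
      apply h1
      refine ⟨h2, ?_⟩
      show (1 + nsq v) / 4 ≤ nsq (v + h - v)
      rw [add_sub_cancel_left]
      exact h4
    have h5 := nsq_par (v + h) h
    rw [add_sub_cancel_right] at h5
    have h6 := sq_nonneg' (v + h + h)
    linarith
  · push Not at h2
    linarith

private lemma ptS_exc {v z h : Vec d} (hr : (z, v + h) ∉ RS v) : 1 / 4 ≤ nsq h := by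
  have hv := sq_nonneg' v
  by_contra h1
  push Not at h1
  apply hr
  constructor
  · rintro ⟨_, h2⟩
    have h3 : (1 + nsq v) / 4 ≤ nsq (v + h - v) := h2
    rw [add_sub_cancel_left] at h3
    linarith
  · rintro ⟨_, h2⟩
    have h3 : 1 / 4 * (1 + nsq v) ≤ nsq (v + h - v) := h2
    rw [add_sub_cancel_left] at h3
    linarith

private lemma ptS_half {h : Vec d} {α : ℝ} (h0 : 0 < α) (h1 : α ≤ 1) (hh : 1 / 4 ≤ nsq h) :
    1 / 2 ≤ min 1 (len h) ^ α := by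
  have h2 : 1 / 2 ≤ len h := by
    unfold len
    refine Real.le_sqrt_of_sq_le ?_
    norm_num
    linarith
  have h3 : 1 / 2 ≤ min 1 (len h) := le_min (by norm_num) h2
  calc (1 / 2 : ℝ) = (1 / 2 : ℝ) ^ (1 : ℝ) := (Real.rpow_one _).symm
    _ ≤ (1 / 2 : ℝ) ^ α := Real.rpow_le_rpow_of_exponent_ge (by norm_num) (by norm_num) h1
    _ ≤ min 1 (len h) ^ α := Real.rpow_le_rpow (by norm_num) h3 h0.le

open Classical in
private lemma ptS_core (Cl : ℕ → ℝ) (p : ℕ) {α Γ Λ : ℝ} {F : Vec d → ℝ} (h0 : 0 < α) (h1 : α ≤ 1)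
    (hF : FB Cl F) (hΓ : 0 ≤ Γ) (hΛ : 0 ≤ Λ)
    (hol : ∀ v h, |F (v + h) - F v| ≤ Γ * min 1 (len h) ^ α * (Wp (p + 2) v + Wp (p + 2) (v + h)))
    (v z h : Vec d) {q δ : ℝ} (hq0 : 0 ≤ q) (hq1 : q ≤ 1) (hδ : |δ| ≤ Λ * Wp p z) :
    δ * (F (v + h) - q * F v) ≤ (if (z, v + h) ∈ RS v then 0 else Λ * (Wp p z * F (v + h))) +
      Λ * ((1 + 4 ^ (p + 2) + 2 * (((d : ℝ) + 1) ^ (p + 2) * |Cl (2 * (p + 2))|)) * (1 + Γ)) *
        (Wp p z * (Wp (p + 2) v * (min 1 (len h) ^ α + (1 - q)))) := by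
  have hK1 : 0 ≤ ((d : ℝ) + 1) ^ (p + 2) * |Cl (2 * (p + 2))| := by positivity
  have hFv := ptS_F Cl p hF v
  generalize ((d : ℝ) + 1) ^ (p + 2) * |Cl (2 * (p + 2))| = K1 at hK1 hFv ⊢
  have hFv0 := hF.nonneg v
  have hFv0' := hF.nonneg (v + h)
  have hW := (Wp_pos (p + 2) v).le
  have hWz := (Wp_pos p z).le
  have hmn : 0 ≤ min 1 (len h) ^ α := Real.rpow_nonneg (le_min zero_le_one (len_nonneg h)) _
  have h4 : (0 : ℝ) ≤ 4 ^ (p + 2) := by positivity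
  have hM : 0 ≤ Λ * Wp p z := mul_nonneg hΛ hWz
  have hδ1 : δ * (F (v + h) - q * F v) ≤ δ * (F (v + h) - F v) + Λ * Wp p z * ((1 - q) * F v) := by
    have h5 : δ * ((1 - q) * F v) ≤ Λ * Wp p z * ((1 - q) * F v) :=
      mul_le_mul_of_nonneg_right ((le_abs_self _).trans hδ)
        (mul_nonneg (by linarith) hFv0)
    linarith
  by_cases hr : (z, v + h) ∈ RS v
  · rw [if_pos hr]
    have h6 := ptS_W p (ptS_reg hr)
    have h7 : δ * (F (v + h) - F v) ≤ Λ * Wp p z * (Γ * min 1 (len h) ^ α *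
        ((1 + 4 ^ (p + 2)) * Wp (p + 2) v)) := by
      calc δ * (F (v + h) - F v) ≤ |δ * (F (v + h) - F v)| := le_abs_self _
        _ = |δ| * |F (v + h) - F v| := abs_mul _ _
        _ ≤ Λ * Wp p z * (Γ * min 1 (len h) ^ α * (Wp (p + 2) v + Wp (p + 2) (v + h))) :=
            mul_le_mul hδ (hol v h) (abs_nonneg _) hM
        _ ≤ Λ * Wp p z * (Γ * min 1 (len h) ^ α * ((1 + 4 ^ (p + 2)) * Wp (p + 2) v)) := by
            refine mul_le_mul_of_nonneg_left (mul_le_mul_of_nonneg_left ?_ (mul_nonneg hΓ hmn)) hM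
            linarith
    have h8 : Λ * Wp p z * ((1 - q) * F v) ≤ Λ * Wp p z * ((1 - q) * (K1 * Wp (p + 2) v)) :=
      mul_le_mul_of_nonneg_left (mul_le_mul_of_nonneg_left hFv (by linarith)) hM
    have h9 : Γ * min 1 (len h) ^ α * ((1 + 4 ^ (p + 2)) * Wp (p + 2) v) +
        (1 - q) * (K1 * Wp (p + 2) v) ≤
        (1 + 4 ^ (p + 2) + 2 * K1) * (1 + Γ) * (Wp (p + 2) v * (min 1 (len h) ^ α + (1 - q))) := by
      have e : (1 + 4 ^ (p + 2) + 2 * K1) * (1 + Γ) *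
          (Wp (p + 2) v * (min 1 (len h) ^ α + (1 - q))) =
          Γ * min 1 (len h) ^ α * ((1 + 4 ^ (p + 2)) * Wp (p + 2) v) +
          (1 - q) * (K1 * Wp (p + 2) v) +
          ((1 + 4 ^ (p + 2)) * Wp (p + 2) v * min 1 (len h) ^ α +
            2 * K1 * (1 + Γ) * (Wp (p + 2) v * min 1 (len h) ^ α) +
            (1 + 4 ^ (p + 2)) * (1 + Γ) * (Wp (p + 2) v * (1 - q)) +
            K1 * (Wp (p + 2) v * (1 - q)) + 2 * K1 * Γ * (Wp (p + 2) v * (1 - q))) := by ring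
      rw [e]
      have hq : 0 ≤ 1 - q := by linarith
      have : 0 ≤ (1 + 4 ^ (p + 2)) * Wp (p + 2) v * min 1 (len h) ^ α +
            2 * K1 * (1 + Γ) * (Wp (p + 2) v * min 1 (len h) ^ α) +
            (1 + 4 ^ (p + 2)) * (1 + Γ) * (Wp (p + 2) v * (1 - q)) +
            K1 * (Wp (p + 2) v * (1 - q)) + 2 * K1 * Γ * (Wp (p + 2) v * (1 - q)) := by
        positivity
      linarith
    have h10 := mul_le_mul_of_nonneg_left h9 hM
    calc δ * (F (v + h) - q * F v)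
        ≤ Λ * Wp p z * (Γ * min 1 (len h) ^ α * ((1 + 4 ^ (p + 2)) * Wp (p + 2) v) +
          (1 - q) * (K1 * Wp (p + 2) v)) := by rw [mul_add]; linarith
      _ ≤ _ := h10
      _ = _ := by ring
  · rw [if_neg hr]
    have h5 := ptS_half h0 h1 (ptS_exc hr)
    have h6 : δ * (F (v + h) - q * F v) ≤ Λ * Wp p z * (F (v + h) + F v) := by
      calc δ * (F (v + h) - q * F v) ≤ |δ * (F (v + h) - q * F v)| := le_abs_self _
        _ = |δ| * |F (v + h) - q * F v| := abs_mul _ _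
        _ ≤ Λ * Wp p z * (F (v + h) + F v) := by
            refine mul_le_mul hδ ?_ (abs_nonneg _) hM
            have h7 : q * F v ≤ F v := by nlinarith
            have h8 : 0 ≤ q * F v := mul_nonneg hq0 hFv0
            rw [abs_le]
            constructor <;> linarith
    have h9 : F v ≤ (1 + 4 ^ (p + 2) + 2 * K1) * (1 + Γ) *
        (Wp (p + 2) v * (min 1 (len h) ^ α + (1 - q))) := by
      have hq : 0 ≤ 1 - q := by linarith
      have e1 : K1 * Wp (p + 2) v ≤ 2 * K1 * (Wp (p + 2) v * min 1 (len h) ^ α) := by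
        have h10 : 0 ≤ K1 * Wp (p + 2) v := mul_nonneg hK1 hW
        have h11 := mul_le_mul_of_nonneg_left h5 h10
        linarith
      have e2 : (1 + 4 ^ (p + 2) + 2 * K1) * (1 + Γ) *
          (Wp (p + 2) v * (min 1 (len h) ^ α + (1 - q))) =
          2 * K1 * (Wp (p + 2) v * min 1 (len h) ^ α) +
          (2 * K1 * Γ * (Wp (p + 2) v * min 1 (len h) ^ α) +
            (1 + 4 ^ (p + 2)) * (1 + Γ) * (Wp (p + 2) v * min 1 (len h) ^ α) +
            (1 + 4 ^ (p + 2) + 2 * K1) * (1 + Γ) * (Wp (p + 2) v * (1 - q))) := by ring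
      rw [e2]
      have : 0 ≤ 2 * K1 * Γ * (Wp (p + 2) v * min 1 (len h) ^ α) +
            (1 + 4 ^ (p + 2)) * (1 + Γ) * (Wp (p + 2) v * min 1 (len h) ^ α) +
            (1 + 4 ^ (p + 2) + 2 * K1) * (1 + Γ) * (Wp (p + 2) v * (1 - q)) := by
        positivity
      linarith
    have h10 := mul_le_mul_of_nonneg_left h9 hM
    calc δ * (F (v + h) - q * F v) ≤ Λ * Wp p z * (F (v + h) + F v) := h6
      _ = Λ * (Wp p z * F (v + h)) + Λ * Wp p z * F v := by ring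
      _ ≤ Λ * (Wp p z * F (v + h)) + Λ * Wp p z * ((1 + 4 ^ (p + 2) + 2 * K1) * (1 + Γ) *
        (Wp (p + 2) v * (min 1 (len h) ^ α + (1 - q)))) := by linarith
      _ = _ := by ring

open Classical in
theorem ptS (Cl : ℕ → ℝ) (p : ℕ) : ∃ K : ℝ, 0 ≤ K ∧ ∀ (α Γ Λ : ℝ) (F G : Vec d → ℝ),
    0 < α → α ≤ 1 → TS Cl p α Γ Λ F G → ∀ v z h : Vec d, ∀ q : ℝ, 0 ≤ q → q ≤ 1 →
    (G v - F v = Λ * Wp p v →
      G z * G (v + h) + q * (F z * F v) + G z * (q * (Λ * Wp p v)) ≤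
        F z * F (v + h) + q * (G z * G v) + G z * (Λ * Wp p (v + h)) +
        (if (z, v + h) ∈ RS v then 0 else Λ * (Wp p z * F (v + h))) +
        Λ * (K * (1 + Γ)) * (Wp p z * (Wp (p + 2) v * (min 1 (len h) ^ α + (1 - q))))) ∧
    (F v - G v = Λ * Wp p v →
      F z * F (v + h) + q * (G z * G v) + G z * (q * (Λ * Wp p v)) ≤
        G z * G (v + h) + q * (F z * F v) + G z * (Λ * Wp p (v + h)) +
        (if (z, v + h) ∈ RS v then 0 else Λ * (Wp p z * F (v + h))) +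
        Λ * (K * (1 + Γ)) * (Wp p z * (Wp (p + 2) v * (min 1 (len h) ^ α + (1 - q))))) := by
  refine ⟨1 + 4 ^ (p + 2) + 2 * (((d : ℝ) + 1) ^ (p + 2) * |Cl (2 * (p + 2))|), by positivity, ?_⟩
  intro α Γ Λ F G h0 h1 hT v z h q hq0 hq1
  have hD := hT.dif z
  have hD' := hT.dif (v + h)
  have hG := hT.hG.nonneg z
  constructor
  · intro hv
    have hc := ptS_core Cl p h0 h1 hT.hF hT.gam hT.lam hT.hol v z h hq0 hq1
      (δ := G z - F z) hD
    have h3 : G z * (G (v + h) - F (v + h)) ≤ G z * (Λ * Wp p (v + h)) :=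
      mul_le_mul_of_nonneg_left ((le_abs_self _).trans hD') hG
    have h4 : G z * G (v + h) + q * (F z * F v) + G z * (q * (Λ * Wp p v)) =
        F z * F (v + h) + q * (G z * G v) + G z * (G (v + h) - F (v + h)) +
          (G z - F z) * (F (v + h) - q * F v) := by
      rw [← hv]; ring
    rw [h4]
    linarith
  · intro hv
    have hc := ptS_core Cl p h0 h1 hT.hF hT.gam hT.lam hT.hol v z h hq0 hq1
      (δ := F z - G z) (by rw [abs_sub_comm]; exact hD)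
    have h3 : G z * (F (v + h) - G (v + h)) ≤ G z * (Λ * Wp p (v + h)) := by
      refine mul_le_mul_of_nonneg_left (le_trans ?_ hD') hG
      rw [abs_sub_comm]
      exact le_abs_self _
    have h4 : F z * F (v + h) + q * (G z * G v) + G z * (q * (Λ * Wp p v)) =
        G z * G (v + h) + q * (F z * F v) + G z * (F (v + h) - G (v + h)) +
          (F z - G z) * (F (v + h) - q * F v) := by
      rw [← hv]; ring
    rw [h4]
    linarith

end Pool.Agent.H48.PS
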