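import Pool.Agent.H48.PS.Defs
import Pool.Agent.H82.CM.Op
import Pool.Agent.H82.BK.MaxPr

/-!
# Module Prp: propagation of all decay constants

For a natural number `q` with `d + γ + 4 ≤ 2q`: `op_bound` (H82/CM/Op, `namespace Pool.Agent.H82.CM`) at a point `v` where `f t x u (1+|u|²)^q ≤ f t x v (1+|v|²)^q` for all `u`: `Q(f)(v) ≤ K f(v) ∫_{Med} f(z) len(v-z)^γ dz`. On `MedR δ a₀ L v`: not slow, so `1+|v|² < a₀` or `|z|² > δ² (1+|v|²)`,
in both cases `1+|v|² ≤ (a₀+δ⁻²)(1+|z|²)`, `len(v-z)^γ ≤ (1+len(v-z)²) ≤ 2(1+|v|²)+2(1+|z|²)` (`0 ≤ γ ≤ 2`), so the integral is `≤ C A₁ ∫ Wp p z (1+nsq z) dz = C'`, a constant. `max_principle` (H82/BK/MaxPr) with `m = 1`, `K := K C'`: `f t x v (1+|v|²)^q ≤ A₀ exp(K C' T₀)`,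
`A₀ = max 0 (bound of f 0 (1+|v|²)^q)`, `≤ (d+1)^q |B (2q)|`. For given `N` take `q = N + d + 10` (so `2q ≥ N`, and `1+‖v‖ ≤ 2(1+|v|²)^(1/2)`-type comparison `(1+‖v‖)^N ≤ 2^N (1+nsq v)^q`).
-/

set_option autoImplicit false

open MeasureTheory Set Filter Topology Pool.Agent.H25.Kin Pool.Agent.H48.PL Pool.Agent.H48.PD
open Pool.Agent.H82.BK Pool.Agent.H48.PR

namespace Pool.Agent.H48.PS

variable {d : ℕ} {γ s : ℝ} {b : ℝ → ℝ}

private lemma prp_norm (v : Vec d) : (1 + ‖v‖) ^ 2 ≤ 2 * (1 + nsq v) := by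
  have h1 := norm_sq_le_sq v
  have h2 := norm_nonneg v
  nlinarith [sq_nonneg (‖v‖ - 1)]

private lemma prp_norm1 (v : Vec d) : 1 + ‖v‖ ≤ 2 * (1 + nsq v) := by
  have h1 := prp_norm v
  have h2 := norm_nonneg v
  nlinarith

private lemma prp_int {p : ℕ} (hp : d + 10 ≤ p) :
    Integrable fun z : Vec d => Wp p z * (1 + nsq z) ^ 2 := by
  have hc : Continuous fun z : Vec d => Wp p z * (1 + nsq z) ^ 2 :=
    (Wp_cont p).mul ((continuous_const.add continuous_sq).pow 2)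
  refine ((integrable_wt (d := d)).const_mul ((2 : ℝ) ^ (d + 1))).mono' hc.aestronglyMeasurable
    (Eventually.of_forall fun z => ?_)
  have h0 := sq_nonneg' z
  have h1 : (1 : ℝ) ≤ 1 + nsq z := by linarith
  have hW := Wp_pos p z
  rw [Real.norm_eq_abs, abs_of_nonneg (by positivity)]
  have h2 : Wp p z * (1 + nsq z) ^ 2 ≤ ((1 + nsq z) ^ (d + 1))⁻¹ := by
    unfold Wp
    rw [inv_mul_le_iff₀ (by positivity), ← div_eq_mul_inv, le_div_iff₀ (by positivity), ← pow_add]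
    exact pow_le_pow_right₀ h1 (by omega)
  have h3 : ((1 + nsq z) ^ (d + 1))⁻¹ ≤ 2 ^ (d + 1) * wt d z := by
    unfold wt
    have hn : 0 < 1 + ‖z‖ := w_pos z
    rw [← div_eq_mul_inv, inv_eq_one_div, div_le_div_iff₀ (by positivity) (by positivity), one_mul,
      ← mul_pow]
    exact pow_le_pow_left₀ hn.le (prp_norm1 z) _
  exact h2.trans h3

private lemma prp_len {γ : ℝ} (h0 : 0 ≤ γ) (h2 : γ ≤ 2) (v z : Vec d) :
    len (v - z) ^ γ ≤ 2 * ((1 + nsq v) * (1 + nsq z)) := by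
  refine le_trans ?_ (one_add_sq_sub_le v z)
  have hl := len_nonneg (v - z)
  have hs := sq_nonneg' (v - z)
  have hsq : len (v - z) ^ 2 = nsq (v - z) := Real.sq_sqrt hs
  rcases le_total (len (v - z)) 1 with h | h
  · have := Real.rpow_le_one hl h h0
    linarith
  · have h3 : len (v - z) ^ γ ≤ len (v - z) ^ (2 : ℝ) := Real.rpow_le_rpow_of_exponent_le h h2
    rw [Real.rpow_two, hsq] at h3
    linarith

private lemma prp_med {δ a₀ L : ℝ} (hδ : 0 < δ) (ha : 1 ≤ a₀) {v z : Vec d}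
    (h : Pool.Agent.H82.CM.MedR δ a₀ L v z) : 1 + nsq v ≤ (a₀ + (δ ^ 2)⁻¹) * (1 + nsq z) := by
  have hz := sq_nonneg' z
  have hv := sq_nonneg' v
  have hd2 : 0 < δ ^ 2 := by positivity
  have hi : 0 < (δ ^ 2)⁻¹ := inv_pos.2 hd2
  have h1 := h.2
  unfold Pool.Agent.H82.CM.SlowR at h1
  rw [not_and_or, not_le, not_le] at h1
  rcases h1 with h1 | h1
  · nlinarith
  · have h3 : 1 + nsq v ≤ (δ ^ 2)⁻¹ * nsq z := by
      rw [← div_eq_inv_mul, le_div_iff₀ hd2]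
      linarith
    nlinarith

private lemma prp_key (hd : 2 ≤ d) (hs0 : s ∈ Ioo (0 : ℝ) 1) (h0 : 0 ≤ γ) (h2 : γ + 2 * s ≤ 2)
    (hb : IsKernel d s b) {p : ℕ} (hp : d + 10 ≤ p) (T₀ A₁ : ℝ) (B : ℕ → ℝ) (N : ℕ) :
    ∃ U : ℝ, ∀ T ≤ T₀, ∀ f : ℝ → Vec d → Vec d → ℝ, IsBoltzmannSol γ b T f →
      (∀ N x v, (1 + ‖v‖) ^ N * f 0 x v ≤ B N) → (∀ t ∈ Ico 0 T, ∀ x v, f t x v ≤ A₁ * Wp p v) →
      ∀ t ∈ Ico 0 T, ∀ x v, (1 + ‖v‖) ^ N * f t x v ≤ U := by
  have hγ2 : γ ≤ 2 := by linarith [hs0.1]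
  set q : ℕ := N + d + 10 with hq
  have hq2 : (d : ℝ) + γ + 4 ≤ 2 * q := by
    have : (q : ℝ) = N + d + 10 := by rw [hq]; push_cast; ring
    have hN : (0 : ℝ) ≤ N := Nat.cast_nonneg N
    have hdd : (0 : ℝ) ≤ d := Nat.cast_nonneg d
    rw [this]
    linarith
  obtain ⟨K, κ, δ, a₀, L, hK, hκ, hδ, hδ1, ha₀, hL, hop⟩ :=
    Pool.Agent.H82.CM.op_bound hd hs0 (by linarith [hs0.1]) h2 hb hq2
  set c : ℝ := a₀ + (δ ^ 2)⁻¹ with hc
  have hc0 : 0 ≤ c := by rw [hc]; positivity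
  set I₀ : ℝ := ∫ z : Vec d, Wp p z * (1 + nsq z) ^ 2 with hI₀
  have hnn0 : ∀ z : Vec d, 0 ≤ Wp p z * (1 + nsq z) ^ 2 := fun z =>
    mul_nonneg (Wp_pos p z).le (by positivity)
  have hI0 : 0 ≤ I₀ := integral_nonneg hnn0
  set C' : ℝ := 2 * c * |A₁| * I₀ with hC'
  have hC0 : 0 ≤ C' := by rw [hC']; positivity
  set A₀ : ℝ := ((d : ℝ) + 1) ^ q * |B (2 * q)| with hA₀
  have hA00 : 0 ≤ A₀ := by rw [hA₀]; positivity
  refine ⟨2 ^ N * (A₀ * Real.exp (K * C' * T₀)), fun T hT f hf hf0 hfA t ht x v => ?_⟩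
  have hTpos : 0 < T := lt_of_le_of_lt ht.1 ht.2
  have hmax := max_principle hf q (m := fun _ => (1 : ℝ)) (K := K * C') (mul_nonneg hK hC0)
    (by
      have h1 : IntegrableOn (fun _ : ℝ => (1 : ℝ)) (Ioo 0 T) :=
        integrableOn_const (by rw [Real.volume_Ioo]; exact ENNReal.ofReal_ne_top)
      exact h1) (fun _ _ => zero_le_one)
    (by
      intro t ht x v hdom
      have hn := IsClassicalSol.nice hf ht x
      have hfn := fun u => hf.nonneg t ⟨ht.1.le, ht.2⟩ x u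
      have h1 := hop (f t x) hn hfn v hdom
      have hslow : 0 ≤ κ * f t x v * ∫ z in {z | Pool.Agent.H82.CM.SlowR δ a₀ v z}, f t x z * len (v - z) ^ γ :=
        mul_nonneg (mul_nonneg hκ.le (hfn v)) (integral_nonneg fun z =>
          mul_nonneg (hfn z) (Real.rpow_nonneg (len_nonneg _) _))
      have hS := Pool.Agent.H82.CM.measurableSet_MedR δ a₀ L v
      have i0 : Integrable fun z : Vec d => 2 * c * |A₁| * (Wp p z * (1 + nsq z) ^ 2) :=
        (prp_int hp).const_mul _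
      have h3 : ∫ z in {z | Pool.Agent.H82.CM.MedR δ a₀ L v z}, f t x z * len (v - z) ^ γ ≤
          ∫ z in {z | Pool.Agent.H82.CM.MedR δ a₀ L v z}, 2 * c * |A₁| * (Wp p z * (1 + nsq z) ^ 2) := by
        refine integral_mono_of_nonneg (Eventually.of_forall fun z =>
          mul_nonneg (hfn z) (Real.rpow_nonneg (len_nonneg _) _)) i0.integrableOn
          ((ae_restrict_iff' hS).2 (Eventually.of_forall fun z hz => ?_))
        have hz' : Pool.Agent.H82.CM.MedR δ a₀ L v z := hz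
        have e1 := hfA t ⟨ht.1.le, ht.2⟩ x z
        have hW := Wp_pos p z
        have e2 : f t x z ≤ |A₁| * Wp p z :=
          e1.trans (mul_le_mul_of_nonneg_right (le_abs_self _) hW.le)
        have e3 := prp_len h0 hγ2 v z
        have e4 := prp_med hδ ha₀ hz'
        have hz1 : 0 ≤ 1 + nsq z := by linarith [sq_nonneg' z]
        have e5 : len (v - z) ^ γ ≤ 2 * (c * (1 + nsq z) ^ 2) := by
          have := mul_le_mul_of_nonneg_right e4 hz1
          nlinarith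
        have e6 := Real.rpow_nonneg (len_nonneg (v - z)) γ
        calc f t x z * len (v - z) ^ γ ≤ (|A₁| * Wp p z) * (2 * (c * (1 + nsq z) ^ 2)) :=
              mul_le_mul e2 e5 e6 (mul_nonneg (abs_nonneg _) hW.le)
          _ = 2 * c * |A₁| * (Wp p z * (1 + nsq z) ^ 2) := by ring
      have h4 : ∫ z in {z | Pool.Agent.H82.CM.MedR δ a₀ L v z}, 2 * c * |A₁| * (Wp p z * (1 + nsq z) ^ 2) ≤ C' := by
        have h5 := setIntegral_le_integral (s := {z | Pool.Agent.H82.CM.MedR δ a₀ L v z}) i0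
          (Eventually.of_forall fun z => mul_nonneg (by positivity) (hnn0 z))
        refine h5.trans (le_of_eq ?_)
        rw [integral_const_mul]
      have h6 : K * f t x v * ∫ z in {z | Pool.Agent.H82.CM.MedR δ a₀ L v z}, f t x z * len (v - z) ^ γ ≤
          K * f t x v * C' := mul_le_mul_of_nonneg_left (h3.trans h4) (mul_nonneg hK (hfn v))
      have h7 : K * C' * f t x v * 1 = K * f t x v * C' := by ring
      rw [h7]
      linarith)
    (A₀ := A₀) (by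
      intro x v
      have hn : 0 ≤ f 0 x v := hf.nonneg 0 ⟨le_rfl, hTpos⟩ x v
      have h1 := one_add_sq_le v
      have h2' : (1 + nsq v) ^ q ≤ ((d + 1) * (1 + ‖v‖) ^ 2) ^ q :=
        pow_le_pow_left₀ (by linarith [sq_nonneg' v]) h1 q
      rw [mul_pow, ← pow_mul] at h2'
      have h3 := hf0 (2 * q) x v
      calc f 0 x v * (1 + nsq v) ^ q ≤ f 0 x v * ((d + 1) ^ q * (1 + ‖v‖) ^ (2 * q)) :=
            mul_le_mul_of_nonneg_left h2' hn
        _ = (d + 1) ^ q * ((1 + ‖v‖) ^ (2 * q) * f 0 x v) := by ring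
        _ ≤ (d + 1) ^ q * |B (2 * q)| :=
            mul_le_mul_of_nonneg_left (h3.trans (le_abs_self _)) (by positivity)) t ht x v
  have hf1 : 0 ≤ f t x v := hf.nonneg t ht x v
  have hint : ∫ _ in Ioc 0 t, (1 : ℝ) = t := by
    rw [← intervalIntegral.integral_of_le ht.1]
    simp
  rw [hint] at hmax
  have hexp : Real.exp (K * C' * t) ≤ Real.exp (K * C' * T₀) :=
    Real.exp_le_exp.2 (mul_le_mul_of_nonneg_left (ht.2.le.trans hT) (mul_nonneg hK hC0))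
  have h8 : f t x v * (1 + nsq v) ^ q ≤ A₀ * Real.exp (K * C' * T₀) :=
    hmax.trans (mul_le_mul_of_nonneg_left hexp hA00)
  have h9 : (1 + ‖v‖) ^ N ≤ 2 ^ N * (1 + nsq v) ^ q := by
    have e1 : (1 + ‖v‖) ^ N ≤ (2 * (1 + nsq v)) ^ N := pow_le_pow_left₀ (w_pos v).le (prp_norm1 v) N
    rw [mul_pow] at e1
    have e2 : (1 + nsq v) ^ N ≤ (1 + nsq v) ^ q :=
      pow_le_pow_right₀ (by linarith [sq_nonneg' v]) (by omega)
    exact e1.trans (mul_le_mul_of_nonneg_left e2 (by positivity))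
  calc (1 + ‖v‖) ^ N * f t x v ≤ (2 ^ N * (1 + nsq v) ^ q) * f t x v :=
        mul_le_mul_of_nonneg_right h9 hf1
    _ = 2 ^ N * (f t x v * (1 + nsq v) ^ q) := by ring
    _ ≤ 2 ^ N * (A₀ * Real.exp (K * C' * T₀)) := mul_le_mul_of_nonneg_left h8 (by positivity)

theorem prp (hd : 2 ≤ d) (hs0 : s ∈ Ioo (0 : ℝ) 1) (h0 : 0 ≤ γ) (h2 : γ + 2 * s ≤ 2)
    (hb : IsKernel d s b) {p : ℕ} (hp : d + 10 ≤ p) (T₀ A₁ : ℝ) (B : ℕ → ℝ) :
    ∃ U : ℕ → ℝ, ∀ T ≤ T₀, ∀ f : ℝ → Vec d → Vec d → ℝ, IsBoltzmannSol γ b T f →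
      (∀ N x v, (1 + ‖v‖) ^ N * f 0 x v ≤ B N) → (∀ t ∈ Ico 0 T, ∀ x v, f t x v ≤ A₁ * Wp p v) →
      ∀ t ∈ Ico 0 T, ∀ N x v, (1 + ‖v‖) ^ N * f t x v ≤ U N := by
  choose U hU using prp_key hd hs0 h0 h2 hb hp T₀ A₁ B
  exact ⟨U, fun T hT f hf hf0 hfA t ht N x v => hU N T hT f hf hf0 hfA t ht x v⟩

end Pool.Agent.H48.PS
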