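import Pool.Agent.H48.PS.Defs
import Pool.Agent.H82.BK.Touch

/-!
# Module Tch2: first touching point of the difference of two solutions

As `first_touch` (H82/BK/Touch) with `|f t x v - g t x v|` in place of `f t x v`: `|f - g| (1+|v|²)^p ≤ (f + g)(1+|v|²)^p` is small for large `‖v‖`, uniformly on `[0,T₁]` (`decay`); continuity of `|f-g|`; periodicity of both. Copy the proof.
-/

set_option autoImplicit false

open MeasureTheory Set Filter Topology Pool.Agent.H25.Kin Pool.Agent.H48.PL Pool.Agent.H48.PD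
open Pool.Agent.H82.BK Pool.Agent.H48.PR

namespace Pool.Agent.H48.PS

variable {d : ℕ}

/-- reduction of the position to the unit cube -/
private lemma tch2_per {F : Vec d → ℝ} (hF : Per F) (x : Vec d) :
    ∃ y ∈ Icc (0 : Vec d) 1, F y = F x := by
  refine ⟨fun i => Int.fract (x i), ⟨fun i => Int.fract_nonneg _, fun i => (Int.fract_lt_one _).le⟩, ?_⟩
  have hl : (fun i => (-(⌊x i⌋ : ℤ) : ℝ)) ∈
      Submodule.span ℤ (Set.range (Pi.basisFun ℝ (Fin d))) := by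
    have e : (fun i => (-(⌊x i⌋ : ℤ) : ℝ)) = ∑ i, (-⌊x i⌋ : ℤ) • (Pi.basisFun ℝ (Fin d) i) := by
      funext j
      rw [Finset.sum_apply]
      simp only [Pi.basisFun_apply, Pi.smul_apply, Pi.single_apply]
      rw [Finset.sum_eq_single j]
      · simp
      · intro b _ hb
        simp [Ne.symm hb]
      · intro h
        exact absurd (Finset.mem_univ _) h
    rw [e]
    exact Submodule.sum_mem _ fun i _ => Submodule.smul_mem _ _
      (Submodule.subset_span (Set.mem_range_self i))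
  have h := hF.span hl x
  have e2 : (fun i => (-(⌊x i⌋ : ℤ) : ℝ)) + x = fun i => Int.fract (x i) := by
    funext i
    simp only [Pi.add_apply, Int.fract]
    ring
  rw [e2] at h
  exact h

/-- velocities with a large value of `F` are bounded -/
private lemma tch2_bdd {T : ℝ} {Q f : ℝ → Vec d → Vec d → ℝ} (hf : IsClassicalSol T Q f) (p : ℕ)
    {T₁ : ℝ} (hT₁ : T₁ < T) {β : ℝ} (hβ : 0 < β) :
    ∃ R : ℝ, ∀ t ∈ Icc 0 T₁, ∀ x v, β ≤ f t x v * (1 + nsq v) ^ p → ‖v‖ ≤ R := by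
  obtain ⟨C, hC⟩ := hf.decay T₁ hT₁ (2 * p + 1)
  refine ⟨((d : ℝ) + 1) ^ p * C / β, fun t ht x v h => ?_⟩
  have h0 : 0 ≤ f t x v := hf.nonneg t ⟨ht.1, ht.2.trans_lt hT₁⟩ x v
  have h1 := hC t ht x v
  have hn := norm_nonneg v
  have h2 : 1 + nsq v ≤ ((d : ℝ) + 1) * (1 + ‖v‖) ^ 2 := by
    have h3 := sq_le v
    have h4 : (0 : ℝ) ≤ d := Nat.cast_nonneg _
    nlinarith [mul_nonneg h4 hn]
  have h5 : (1 + nsq v) ^ p ≤ ((d : ℝ) + 1) ^ p * (1 + ‖v‖) ^ (2 * p) := by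
    rw [pow_mul, ← mul_pow]
    exact pow_le_pow_left₀ (by have := sq_nonneg' v; linarith) h2 p
  have h6 : f t x v * (1 + nsq v) ^ p ≤ f t x v * (((d : ℝ) + 1) ^ p * (1 + ‖v‖) ^ (2 * p)) :=
    mul_le_mul_of_nonneg_left h5 h0
  rw [le_div_iff₀ hβ]
  have h7 : β * (1 + ‖v‖) ≤ ((d : ℝ) + 1) ^ p * C := by
    calc β * (1 + ‖v‖) ≤ (f t x v * (((d : ℝ) + 1) ^ p * (1 + ‖v‖) ^ (2 * p))) * (1 + ‖v‖) := by
          gcongr
          exact h.trans h6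
      _ = ((d : ℝ) + 1) ^ p * ((1 + ‖v‖) ^ (2 * p + 1) * f t x v) := by ring
      _ ≤ ((d : ℝ) + 1) ^ p * C := by gcongr
  nlinarith

variable {T : ℝ} {Q R f g : ℝ → Vec d → Vec d → ℝ}

private lemma tch2_w (p : ℕ) (v : Vec d) : 0 < (1 + nsq v) ^ p :=
  pow_pos (by have := sq_nonneg' v; linarith) p

private lemma tch2_aux (hf : IsClassicalSol T Q f) (hg : IsClassicalSol T R g) (p : ℕ) {T₁ : ℝ}
    (hT₀ : 0 ≤ T₁) (hT₁ : T₁ < T) {B : ℝ → ℝ} (hB : ContinuousOn B (Icc 0 T₁))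
    (hB0 : ∀ t ∈ Icc 0 T₁, 0 < B t) (h0 : ∀ x v, |f 0 x v - g 0 x v| * (1 + nsq v) ^ p < B 0)
    (hex : ∃ t ∈ Icc 0 T₁, ∃ x v, B t ≤ |f t x v - g t x v| * (1 + nsq v) ^ p) :
    ∃ t₀ ∈ Ioc 0 T₁, ∃ x₀ v₀, |f t₀ x₀ v₀ - g t₀ x₀ v₀| * (1 + nsq v₀) ^ p = B t₀ ∧
      (∀ t ∈ Ico 0 t₀, ∀ x v, |f t x v - g t x v| * (1 + nsq v) ^ p < B t) ∧
      (∀ x v, |f t₀ x v - g t₀ x v| * (1 + nsq v) ^ p ≤ B t₀) := by
  obtain ⟨tm, htm, hmin⟩ := isCompact_Icc.exists_isMinOn (nonempty_Icc.2 hT₀) hB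
  have hβ := hB0 tm htm
  have hβ2 : 0 < B tm / 2 := half_pos hβ
  obtain ⟨Rf, hRf⟩ := tch2_bdd hf p hT₁ hβ2
  obtain ⟨Rg, hRg⟩ := tch2_bdd hg p hT₁ hβ2
  have hR : ∀ t ∈ Icc 0 T₁, ∀ x v, B tm ≤ |f t x v - g t x v| * (1 + nsq v) ^ p →
      ‖v‖ ≤ max Rf Rg := by
    intro t ht x v h
    have hw := tch2_w p v
    have hf0 : 0 ≤ f t x v := hf.nonneg t ⟨ht.1, ht.2.trans_lt hT₁⟩ x v
    have hg0 : 0 ≤ g t x v := hg.nonneg t ⟨ht.1, ht.2.trans_lt hT₁⟩ x v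
    have h1 : |f t x v - g t x v| ≤ f t x v + g t x v := by
      rw [abs_le]
      constructor <;> linarith
    have h2 : B tm ≤ f t x v * (1 + nsq v) ^ p + g t x v * (1 + nsq v) ^ p := by
      calc B tm ≤ |f t x v - g t x v| * (1 + nsq v) ^ p := h
        _ ≤ (f t x v + g t x v) * (1 + nsq v) ^ p := mul_le_mul_of_nonneg_right h1 hw.le
        _ = f t x v * (1 + nsq v) ^ p + g t x v * (1 + nsq v) ^ p := by ring
    rcases le_total (B tm / 2) (f t x v * (1 + nsq v) ^ p) with h3 | h3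
    · exact (hRf t ht x v h3).trans (le_max_left _ _)
    · exact (hRg t ht x v (by linarith)).trans (le_max_right _ _)
  have hsub : Icc (0 : ℝ) T₁ ⊆ Ico 0 T := fun t ht => ⟨ht.1, ht.2.trans_lt hT₁⟩
  have hper : ∀ t ∈ Icc (0 : ℝ) T₁, ∀ v : Vec d, Per fun x => |f t x v - g t x v| :=
    fun t ht v x i => by
      have h1 := hf.periodic t (hsub ht) x v i
      have h2 := hg.periodic t (hsub ht) x v i
      simp only at h1 h2 ⊢
      rw [h1, h2]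
  set K : Set (ℝ × Vec d × Vec d) :=
    Icc 0 T₁ ×ˢ (Icc (0 : Vec d) 1 ×ˢ Metric.closedBall (0 : Vec d) (max Rf Rg)) with hK
  have hKc : IsCompact K := isCompact_Icc.prod (isCompact_Icc.prod (isCompact_closedBall _ _))
  have hnq : Continuous (nsq : Vec d → ℝ) := by unfold nsq; fun_prop
  have hFc : ContinuousOn (fun q : ℝ × Vec d × Vec d =>
      |unc f q - unc g q| * (1 + nsq q.2.2) ^ p) (Ico 0 T ×ˢ univ) := by
    refine ((show ContinuousOn (unc f) (Ico 0 T ×ˢ univ) from hf.isCont).sub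
      (show ContinuousOn (unc g) (Ico 0 T ×ˢ univ) from hg.isCont)).abs.mul ?_
    exact ((continuous_const.add (hnq.comp (continuous_snd.comp continuous_snd))).pow p).continuousOn
  have hGc : ContinuousOn (fun q : ℝ × Vec d × Vec d =>
      |unc f q - unc g q| * (1 + nsq q.2.2) ^ p - B q.1) K := by
    refine (hFc.mono fun q hq => ⟨hsub hq.1, mem_univ _⟩).sub ?_
    exact hB.comp continuous_fst.continuousOn fun q hq => hq.1
  set S : Set (ℝ × Vec d × Vec d) :=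
    K ∩ (fun q : ℝ × Vec d × Vec d => |unc f q - unc g q| * (1 + nsq q.2.2) ^ p - B q.1) ⁻¹' Ici 0
    with hS
  have hSc : IsCompact S := hKc.of_isClosed_subset
    (hGc.preimage_isClosed_of_isClosed hKc.isClosed isClosed_Ici) inter_subset_left
  have hmem : ∀ t ∈ Icc (0 : ℝ) T₁, ∀ x v, B t ≤ |f t x v - g t x v| * (1 + nsq v) ^ p →
      ∃ y, (t, y, v) ∈ S := by
    intro t ht x v h
    obtain ⟨y, hy, hyx⟩ := tch2_per (hper t ht v) x
    refine ⟨y, ⟨⟨ht, hy, ?_⟩, ?_⟩⟩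
    · rw [Metric.mem_closedBall, dist_zero_right]
      exact hR t ht x v ((hmin ht).trans h)
    · simp only [mem_preimage, mem_Ici, unc]
      have : |f t y v - g t y v| = |f t x v - g t x v| := hyx
      rw [this]
      linarith
  obtain ⟨t1, ht1, x1, v1, h1⟩ := hex
  obtain ⟨y1, hy1⟩ := hmem t1 ht1 x1 v1 h1
  obtain ⟨q, hqS, hq⟩ := hSc.exists_isMinOn ⟨_, hy1⟩ (f := fun q : ℝ × Vec d × Vec d => q.1)
    continuous_fst.continuousOn
  obtain ⟨t₀, x₀, v₀⟩ := q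
  have ht₀ : t₀ ∈ Icc 0 T₁ := hqS.1.1
  have hge : B t₀ ≤ |f t₀ x₀ v₀ - g t₀ x₀ v₀| * (1 + nsq v₀) ^ p := by
    have := hqS.2
    simp only [mem_preimage, mem_Ici, unc] at this
    linarith
  have hlt : ∀ t ∈ Ico 0 t₀, ∀ x v, |f t x v - g t x v| * (1 + nsq v) ^ p < B t := by
    intro t ht x v
    by_contra hcon
    push Not at hcon
    obtain ⟨y, hy⟩ := hmem t ⟨ht.1, ht.2.le.trans ht₀.2⟩ x v hcon
    have h2 : t₀ ≤ t := hq hy
    exact absurd ht.2 (not_lt.2 h2)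
  have hpos : 0 < t₀ := by
    rcases ht₀.1.lt_or_eq with h | h
    · exact h
    · exfalso
      subst h
      exact absurd hge (not_le.2 (h0 x₀ v₀))
  have hle : ∀ x v, |f t₀ x v - g t₀ x v| * (1 + nsq v) ^ p ≤ B t₀ := by
    intro x v
    have hc : ContinuousOn (fun t : ℝ => |f t x v - g t x v| * (1 + nsq v) ^ p) (Icc 0 T₁) := by
      have h3 : ContinuousOn (fun t : ℝ => (fun q : ℝ × Vec d × Vec d =>
          |unc f q - unc g q| * (1 + nsq q.2.2) ^ p) (t, x, v)) (Icc 0 T₁) := by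
        refine hFc.comp (Continuous.continuousOn (by fun_prop)) fun t ht => ⟨hsub ht, mem_univ _⟩
      exact h3
    have hne : (𝓝[Ico 0 t₀] t₀).NeBot := by
      rw [← mem_closure_iff_nhdsWithin_neBot, closure_Ico hpos.ne]
      exact ⟨hpos.le, le_rfl⟩
    have hs : Ico 0 t₀ ⊆ Icc 0 T₁ := fun t ht => ⟨ht.1, ht.2.le.trans ht₀.2⟩
    have l1 : Tendsto (fun t : ℝ => |f t x v - g t x v| * (1 + nsq v) ^ p) (𝓝[Ico 0 t₀] t₀)
        (𝓝 (|f t₀ x v - g t₀ x v| * (1 + nsq v) ^ p)) := (hc t₀ ht₀).mono hs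
    have l2 : Tendsto B (𝓝[Ico 0 t₀] t₀) (𝓝 (B t₀)) := (hB t₀ ht₀).mono hs
    refine le_of_tendsto_of_tendsto l1 l2 ?_
    filter_upwards [self_mem_nhdsWithin] with t ht
    exact (hlt t ht x v).le
  exact ⟨t₀, ⟨hpos, ht₀.2⟩, x₀, v₀, le_antisymm (hle x₀ v₀) hge, hlt, hle⟩

theorem tch2 (hf : IsClassicalSol T Q f) (hg : IsClassicalSol T R g) (p : ℕ) {T₁ : ℝ}
    (hT₀ : 0 ≤ T₁) (hT₁ : T₁ < T) {B : ℝ → ℝ} (hB : ContinuousOn B (Icc 0 T₁))
    (hB0 : ∀ t ∈ Icc 0 T₁, 0 < B t) (h0 : ∀ x v, |f 0 x v - g 0 x v| < B 0 * Wp p v)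
    (hex : ∃ t ∈ Icc 0 T₁, ∃ x v, B t * Wp p v ≤ |f t x v - g t x v|) :
    ∃ t₀ ∈ Ioc 0 T₁, ∃ x₀ v₀, |f t₀ x₀ v₀ - g t₀ x₀ v₀| = B t₀ * Wp p v₀ ∧
      (∀ t ∈ Ico 0 t₀, ∀ x v, |f t x v - g t x v| < B t * Wp p v) ∧
      (∀ x v, |f t₀ x v - g t₀ x v| ≤ B t₀ * Wp p v) := by
  have hlt : ∀ (a b : ℝ) (v : Vec d), a * (1 + nsq v) ^ p < b ↔ a < b * Wp p v := by
    intro a b v
    unfold Wp
    rw [← div_eq_mul_inv, lt_div_iff₀ (tch2_w p v)]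
  have hle : ∀ (a b : ℝ) (v : Vec d), a * (1 + nsq v) ^ p ≤ b ↔ a ≤ b * Wp p v := by
    intro a b v
    unfold Wp
    rw [← div_eq_mul_inv, le_div_iff₀ (tch2_w p v)]
  have hge : ∀ (a b : ℝ) (v : Vec d), b ≤ a * (1 + nsq v) ^ p ↔ b * Wp p v ≤ a := by
    intro a b v
    unfold Wp
    rw [← div_eq_mul_inv, div_le_iff₀ (tch2_w p v)]
  obtain ⟨t1, ht1, x1, v1, h1⟩ := hex
  obtain ⟨t₀, ht₀, x₀, v₀, k1, k2, k3⟩ := tch2_aux hf hg p hT₀ hT₁ hB hB0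
    (fun x v => (hlt _ _ v).2 (h0 x v)) ⟨t1, ht1, x1, v1, (hge _ _ v1).2 h1⟩
  refine ⟨t₀, ht₀, x₀, v₀, ?_, fun t ht x v => (hlt _ _ v).1 (k2 t ht x v),
    fun x v => (hle _ _ v).1 (k3 x v)⟩
  exact le_antisymm ((hle _ _ v₀).1 k1.le) ((hge _ _ v₀).1 k1.ge)

end Pool.Agent.H48.PS
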