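import Pool.Agent.H48.PS.PtS
import Pool.Agent.H48.PR.CutP
import Pool.Agent.H48.PS.IntUV

/-!
# Module CutS: the operator inequality for the stability estimate

As module CutP of H48/PR, with `ptS` instead of `pt_ineq`. First statement: multiply the first inequality of `ptS` by `len m^γ Kn(c)`, `z = v-m`, `h = hh σ m`, `q = c^(d+γ)`, integrate:
`Gn(G) + Ls(F) + Λ ∫⁻ ofReal(len^γ G(z))(ofReal(W(v)) BB) ≤ Gn(F) + Ls(G) + Λ ∫⁻ [ofReal(len^γ G(z)) GMg univ + ofReal(len^γ F(z)) GEg (RS v)] + Λ K(1+Γ) (intR integral)` (`sw` with `U = Wp p`, `G := F`), and `intUV` (H48/PR/IntH) with `U = G`, `V = F`: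
the bracket is `≤ ∫⁻ ofReal(len^γ G)(ofReal(W(v)) BB) + ofReal(K W(v))`; cancel the finite integral; `cut_eq`. Second statement: the same with the second inequality (`Gn(F) + Ls(G) ... ≤ Gn(G) + Ls(F) ...`).
-/

set_option autoImplicit false

open MeasureTheory Set Filter Topology Pool.Agent.H25.Kin Pool.Agent.H48.PL Pool.Agent.H48.PD
open Pool.Agent.H82.BK Pool.Agent.H82.CM Pool.Agent.H48.PR
open scoped ENNReal

namespace Pool.Agent.H48.PS

variable {d : ℕ} {γ s C Ca cb : ℝ} {b : ℝ → ℝ}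

/-- the double integral over `m` and the half sphere -/
private noncomputable def csI (Ψ : Vec d → Vec d → ℝ≥0∞) : ℝ≥0∞ :=
  ∫⁻ m, ∫⁻ σ in {σ : Vec d | 0 < dot m σ}, Ψ m σ ∂(surf d)

private lemma csI_meas {Ψ : Vec d → Vec d → ℝ≥0∞}
    (h : Measurable fun q : Vec d × Vec d => Ψ q.1 q.2) :
    Measurable fun m : Vec d => ∫⁻ σ in {σ : Vec d | 0 < dot m σ}, Ψ m σ ∂(surf d) := by
  have hS : MeasurableSet {q : Vec d × Vec d | 0 < dot q.1 q.2} := by
    have h1 : Continuous fun q : Vec d × Vec d => dot q.1 q.2 := by unfold dot; fun_prop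
    exact (isOpen_lt continuous_const h1).measurableSet
  have h2 : Measurable fun q : Vec d × Vec d =>
      ({q : Vec d × Vec d | 0 < dot q.1 q.2}.indicator (fun q => Ψ q.1 q.2)) q := h.indicator hS
  have h3 := h2.lintegral_prod_right' (ν := surf d)
  have e : (fun m : Vec d => ∫⁻ σ in {σ : Vec d | 0 < dot m σ}, Ψ m σ ∂(surf d)) =
      fun m : Vec d => ∫⁻ σ, ({q : Vec d × Vec d | 0 < dot q.1 q.2}.indicator
        (fun q => Ψ q.1 q.2)) (m, σ) ∂(surf d) := by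
    funext m
    rw [← lintegral_indicator (measurableSet_half m)]
    rfl
  rw [e]
  exact h3

private lemma csI_meas' {Ψ : Vec d → Vec d → ℝ≥0∞}
    (h : Measurable fun q : Vec d × Vec d => Ψ q.1 q.2) (m : Vec d) :
    Measurable fun σ : Vec d => Ψ m σ :=
  Measurable.comp (g := fun q : Vec d × Vec d => Ψ q.1 q.2) h
    (measurable_const.prodMk measurable_id)

private lemma csI_add {Ψ₁ Ψ₂ : Vec d → Vec d → ℝ≥0∞}
    (h : Measurable fun q : Vec d × Vec d => Ψ₁ q.1 q.2) :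
    csI (fun m σ => Ψ₁ m σ + Ψ₂ m σ) = csI Ψ₁ + csI Ψ₂ := by
  unfold csI
  rw [← lintegral_add_left (csI_meas h)]
  refine lintegral_congr fun m => ?_
  exact lintegral_add_left (csI_meas' h m) _

private lemma csI_mono {Ψ₁ Ψ₂ : Vec d → Vec d → ℝ≥0∞}
    (h : ∀ m σ, nsq σ = 1 → 0 < dot m σ → Ψ₁ m σ ≤ Ψ₂ m σ) : csI Ψ₁ ≤ csI Ψ₂ := by
  unfold csI
  refine lintegral_mono fun m => ?_
  refine lintegral_mono_ae ?_
  filter_upwards [ae_restrict_of_ae surf_ae, ae_restrict_mem (measurableSet_half m)] with σ hσ hm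
  exact h m σ hσ hm

private lemma csI_congr {Ψ₁ Ψ₂ : Vec d → Vec d → ℝ≥0∞}
    (h : ∀ m σ, nsq σ = 1 → 0 < dot m σ → Ψ₁ m σ = Ψ₂ m σ) : csI Ψ₁ = csI Ψ₂ :=
  le_antisymm (csI_mono fun m σ h1 h2 => (h m σ h1 h2).le)
    (csI_mono fun m σ h1 h2 => (h m σ h1 h2).ge)

/-- nonnegative factors depending on `m` only come out -/
private lemma csI_pull {a : Vec d → ℝ} (ha : ∀ m, 0 ≤ a m) (B : Vec d → Vec d → ℝ) :
    csI (fun m σ => ENNReal.ofReal (a m * B m σ)) =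
      ∫⁻ m, ENNReal.ofReal (a m) *
        ∫⁻ σ in {σ : Vec d | 0 < dot m σ}, ENNReal.ofReal (B m σ) ∂(surf d) := by
  unfold csI
  refine lintegral_congr fun m => ?_
  rw [← lintegral_const_mul' _ _ ENNReal.ofReal_ne_top]
  refine lintegral_congr fun σ => ?_
  exact ENNReal.ofReal_mul (ha m)

private lemma csI_const {c : ℝ≥0∞} (hc : c ≠ ⊤) (Ψ : Vec d → Vec d → ℝ≥0∞) :
    csI (fun m σ => c * Ψ m σ) = c * csI Ψ := by
  unfold csI
  rw [← lintegral_const_mul' _ _ hc]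
  refine lintegral_congr fun m => ?_
  rw [← lintegral_const_mul' _ _ hc]

private lemma csKn_nonneg {γ : ℝ} {b : ℝ → ℝ} {C β ε : ℝ} (hC : AngBound b C β) (hε : 0 < ε)
    {m σ : Vec d} (hσ : nsq σ = 1) (hm : 0 < dot m σ) : 0 ≤ Kn d γ (bt b ε) (co m σ) := by
  have h1 := co_pos hm
  have h2 := co_le_one (m := m) hσ
  unfold Kn
  refine mul_nonneg (mul_nonneg (by positivity) (Real.rpow_nonneg h1.le _)) (bt_nonneg hC hε ?_ ?_)
  · nlinarith
  · nlinarith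

private lemma cs_mK (γ : ℝ) {b : ℝ → ℝ} (hb : Measurable b) (ε : ℝ) :
    Measurable fun q : Vec d × Vec d => Kn d γ (bt b ε) (co q.1 q.2) := by
  have h1 := measurable_co (d := d)
  unfold Kn
  exact ((h1.pow_const _).const_mul _).mul
    ((measurable_bt hb ε).comp (((h1.pow_const 2).const_mul 2).sub_const 1))

private lemma cs_mL (γ : ℝ) : Measurable fun q : Vec d × Vec d => len q.1 ^ γ :=
  (continuous_len.measurable.comp measurable_fst).pow_const γ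

private lemma cs_mz (v : Vec d) : Measurable fun q : Vec d × Vec d => v - q.1 :=
  measurable_const.sub measurable_fst

private lemma cs_mh (v : Vec d) : Measurable fun q : Vec d × Vec d => v + hh q.2 q.1 :=
  measurable_const.add measurable_hh

private lemma cs_mA (γ : ℝ) {b : ℝ → ℝ} (hb : Measurable b) (ε : ℝ) {g : Vec d → ℝ}
    (hg : Measurable g) (v : Vec d) : Measurable fun q : Vec d × Vec d =>
      ENNReal.ofReal (len q.1 ^ γ * g (v - q.1) *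
        (Kn d γ (bt b ε) (co q.1 q.2) * g (v + hh q.2 q.1))) :=
  (((cs_mL γ).mul (hg.comp (cs_mz v))).mul
    ((cs_mK γ hb ε).mul (hg.comp (cs_mh v)))).ennreal_ofReal

private lemma cs_mB (γ : ℝ) {b : ℝ → ℝ} (hb : Measurable b) (ε : ℝ) {g : Vec d → ℝ}
    (hg : Measurable g) (v : Vec d) (c : ℝ) : Measurable fun q : Vec d × Vec d =>
      ENNReal.ofReal (len q.1 ^ γ * g (v - q.1) * c *
        (Kn d γ (bt b ε) (co q.1 q.2) * co q.1 q.2 ^ ((d : ℝ) + γ))) :=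
  ((((cs_mL γ).mul (hg.comp (cs_mz v))).mul_const c).mul
    ((cs_mK γ hb ε).mul (measurable_co.pow_const _))).ennreal_ofReal

/-- the loss type terms -/
private lemma cs_loss (hd : 2 ≤ d) (γ : ℝ) {b : ℝ → ℝ} (hb : Measurable b) (ε : ℝ)
    {a : Vec d → ℝ} (ha : ∀ m, 0 ≤ a m) {c : ℝ} (hc : 0 ≤ c) :
    csI (fun m σ => ENNReal.ofReal (a m * c *
        (Kn d γ (bt b ε) (co m σ) * co m σ ^ ((d : ℝ) + γ)))) =
      ∫⁻ m, ENNReal.ofReal (a m) * (ENNReal.ofReal c * BB b ε (dir m)) := by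
  rw [csI_pull (a := fun m => a m * c) (fun m => mul_nonneg (ha m) hc)]
  refine lintegral_congr_ae ?_
  filter_upwards [ae_ne (by omega : 1 ≤ d) (0 : Vec d)] with m hm
  rw [BB_eq hd γ hb ε hm.symm, ENNReal.ofReal_mul (ha m), mul_assoc]

/-- the pointwise inequality in `ℝ≥0∞` -/
private lemma cs_pt {x1 x2 x3 r1 r2 r3 r4 r5 : ℝ} (h1 : 0 ≤ x1) (h2 : 0 ≤ x2) (h3 : 0 ≤ x3)
    (h : x1 + (x2 + x3) ≤ r1 + (r2 + (r3 + (r4 + r5)))) :
    ENNReal.ofReal x1 + (ENNReal.ofReal x2 + ENNReal.ofReal x3) ≤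
      ENNReal.ofReal r1 + (ENNReal.ofReal r2 + (ENNReal.ofReal r3 +
        (ENNReal.ofReal r4 + ENNReal.ofReal r5))) := by
  rw [← ENNReal.ofReal_add h2 h3, ← ENNReal.ofReal_add h1 (by positivity)]
  refine (ENNReal.ofReal_le_ofReal h).trans ?_
  refine ENNReal.ofReal_add_le.trans (add_le_add_right ?_ _)
  refine ENNReal.ofReal_add_le.trans (add_le_add_right ?_ _)
  refine ENNReal.ofReal_add_le.trans (add_le_add_right ?_ _)
  exact ENNReal.ofReal_add_le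


private lemma cs_nice_add {f g : Vec d → ℝ} (hf : Nice f) (hg : Nice g) :
    Nice fun v => f v + g v := by
  have e1 : fderiv ℝ (fun v => f v + g v) = fun v => fderiv ℝ f v + fderiv ℝ g v := by
    funext v
    exact ((hf.diff v).hasFDerivAt.add (hg.diff v).hasFDerivAt).fderiv
  have e2 : fderiv ℝ (fderiv ℝ (fun v => f v + g v)) =
      fun v => fderiv ℝ (fderiv ℝ f) v + fderiv ℝ (fderiv ℝ g) v := by
    rw [e1]
    funext v
    exact ((hf.diff1 v).hasFDerivAt.add (hg.diff1 v).hasFDerivAt).fderiv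
  refine ⟨hf.smooth.add hg.smooth, hf.rd.add hg.rd, ?_, ?_⟩
  · rw [e1]; exact hf.rd1.add hg.rd1
  · rw [e2]; exact hf.rd2.add hg.rd2

open Classical in
/-- the integrated inequality, from the pointwise one -/
private lemma cs_core (HL : HypL d γ s b C Ca cb) (h0 : 0 ≤ γ) {α : ℝ} {p : ℕ}
    {K₁ K₂ K₃ Γ Λ : ℝ} (hK₁ : 0 ≤ K₁) (hK₂ : 0 ≤ K₂) (hK₃ : 0 ≤ K₃) (hΓ : 0 ≤ Γ) (hΛ : 0 ≤ Λ)
    {A B U V : Vec d → ℝ} (nA : Nice A) (A0 : ∀ z, 0 ≤ A z) (nB : Nice B) (B0 : ∀ z, 0 ≤ B z)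
    (nU : Nice U) (U0 : ∀ z, 0 ≤ U z) (mV : Measurable V) (V0 : ∀ z, 0 ≤ V z) {ε : ℝ} (hε : 0 < ε)
    (v : Vec d) (hAB : A v - B v = Λ * Wp p v)
    (hI : ∫⁻ m, (ENNReal.ofReal (len m ^ γ * U (v - m)) * GMg γ b ε (Wp p) univ v m +
          ENNReal.ofReal (len m ^ γ * V (v - m)) * GEg γ b ε (Wp p) (RS v) v m) ≤
        (∫⁻ m, ENNReal.ofReal (len m ^ γ * U (v - m)) *
            (ENNReal.ofReal (Wp p v) * BB b ε (dir m))) + ENNReal.ofReal (K₁ * Wp p v))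
    (hR : ∫⁻ m, ENNReal.ofReal (len m ^ γ * Wp p (v - m)) *
      ∫⁻ σ in {σ : Vec d | 0 < dot m σ}, ENNReal.ofReal (Kn d γ (bt b ε) (co m σ) *
        (Wp (p + 2) v * (min 1 (len (hh σ m)) ^ α + (1 - co m σ ^ ((d : ℝ) + γ))))) ∂(surf d) ≤
      ENNReal.ofReal (K₂ * Wp p v))
    (hP : ∀ z h : Vec d, ∀ q : ℝ, 0 ≤ q → q ≤ 1 →
      A z * A (v + h) + q * (B z * B v) + U z * (q * (Λ * Wp p v)) ≤
        B z * B (v + h) + q * (A z * A v) + U z * (Λ * Wp p (v + h)) +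
        (if (z, v + h) ∈ RS v then 0 else Λ * (Wp p z * V (v + h))) +
        Λ * (K₃ * (1 + Γ)) * (Wp p z * (Wp (p + 2) v * (min 1 (len h) ^ α + (1 - q))))) :
    boltzCut γ b ε A v - boltzCut γ b ε B v ≤ (K₁ + K₂ * K₃) * (1 + Γ) * (Λ * Wp p v) := by
  have hd := HL.H.hd
  have hbm := HL.H.bm
  have hbd := HL.H.bd
  have mB : Measurable B := nB.cont.measurable
  have mA : Measurable A := nA.cont.measurable
  have mU : Measurable U := nU.cont.measurable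
  have mW : Measurable (Wp p : Vec d → ℝ) := (Wp_cont p).measurable
  have W0 : ∀ u : Vec d, 0 ≤ Wp p u := fun u => (Wp_pos p u).le
  have Wv := Wp_pos p v
  have hE0 : 0 ≤ (d : ℝ) + γ := by positivity
  have hl : ∀ m : Vec d, 0 ≤ len m ^ γ := fun m => Real.rpow_nonneg (len_nonneg m) γ
  set Bq : ℝ≥0∞ := ∫⁻ m, ENNReal.ofReal (len m ^ γ * U (v - m)) *
    (ENNReal.ofReal (Wp p v) * BB b ε (dir m)) with hB
  set XH : ℝ≥0∞ := ∫⁻ m, ENNReal.ofReal (len m ^ γ * U (v - m)) *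
    GMg γ b ε (Wp p) univ v m with hXH
  set XE : ℝ≥0∞ := ∫⁻ m, ENNReal.ofReal (len m ^ γ * V (v - m)) *
    GEg γ b ε (Wp p) (RS v) v m with hXE
  set Y : ℝ≥0∞ := ∫⁻ m, ENNReal.ofReal (len m ^ γ * Wp p (v - m)) *
      ∫⁻ σ in {σ : Vec d | 0 < dot m σ}, ENNReal.ofReal (Kn d γ (bt b ε) (co m σ) *
        (Wp (p + 2) v * (min 1 (len (hh σ m)) ^ α + (1 - co m σ ^ ((d : ℝ) + γ))))) ∂(surf d)
    with hY
  -- the integrated terms
  have t1 : csI (fun m σ => ENNReal.ofReal (len m ^ γ * A (v - m) *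
      (Kn d γ (bt b ε) (co m σ) * A (v + hh σ m)))) = Gn γ b ε A v := by
    rw [gain_eq hd γ hbm hbd hε mA A0 v]
    exact csI_pull (a := fun m => len m ^ γ * A (v - m)) (fun m => mul_nonneg (hl m) (A0 _))
      (fun m σ => Kn d γ (bt b ε) (co m σ) * A (v + hh σ m))
  have r1 : csI (fun m σ => ENNReal.ofReal (len m ^ γ * B (v - m) *
      (Kn d γ (bt b ε) (co m σ) * B (v + hh σ m)))) = Gn γ b ε B v := by
    rw [gain_eq hd γ hbm hbd hε mB B0 v]
    exact csI_pull (a := fun m => len m ^ γ * B (v - m)) (fun m => mul_nonneg (hl m) (B0 _))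
      (fun m σ => Kn d γ (bt b ε) (co m σ) * B (v + hh σ m))
  have t2 : csI (fun m σ => ENNReal.ofReal (len m ^ γ * B (v - m) * B v *
      (Kn d γ (bt b ε) (co m σ) * co m σ ^ ((d : ℝ) + γ)))) = Ls γ b ε B v := by
    rw [loss_eq hd γ hbm hbd hε mB B0 v]
    exact cs_loss hd γ hbm ε (a := fun m => len m ^ γ * B (v - m))
      (fun m => mul_nonneg (hl m) (B0 _)) (B0 v)
  have r2 : csI (fun m σ => ENNReal.ofReal (len m ^ γ * A (v - m) * A v *
      (Kn d γ (bt b ε) (co m σ) * co m σ ^ ((d : ℝ) + γ)))) = Ls γ b ε A v := by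
    rw [loss_eq hd γ hbm hbd hε mA A0 v]
    exact cs_loss hd γ hbm ε (a := fun m => len m ^ γ * A (v - m))
      (fun m => mul_nonneg (hl m) (A0 _)) (A0 v)
  have t3 : csI (fun m σ => ENNReal.ofReal (len m ^ γ * U (v - m) *
      (Λ * Wp p v) * (Kn d γ (bt b ε) (co m σ) * co m σ ^ ((d : ℝ) + γ)))) =
      ENNReal.ofReal Λ * Bq := by
    have h := cs_loss hd γ hbm ε (a := fun m => len m ^ γ * U (v - m))
      (fun m => mul_nonneg (hl m) (U0 _)) (c := Λ * Wp p v) (by positivity)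
    refine h.trans ?_
    rw [hB, ← lintegral_const_mul' _ _ ENNReal.ofReal_ne_top]
    refine lintegral_congr fun m => ?_
    rw [ENNReal.ofReal_mul hΛ]
    ring
  have r3 : csI (fun m σ => ENNReal.ofReal Λ * ENNReal.ofReal (len m ^ γ *
      U (v - m) * (Kn d γ (bt b ε) (co m σ) * Wp p (v + hh σ m)))) =
      ENNReal.ofReal Λ * XH := by
    rw [csI_const ENNReal.ofReal_ne_top, hXH]
    congr 1
    refine (csI_pull (a := fun m => len m ^ γ * U (v - m))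
      (fun m => mul_nonneg (hl m) (U0 _))
      (fun m σ => Kn d γ (bt b ε) (co m σ) * Wp p (v + hh σ m))).trans ?_
    refine lintegral_congr fun m => ?_
    congr 1
    unfold GMg
    refine lintegral_congr fun σ => ?_
    rw [if_pos (mem_univ _)]
  have r4 : csI (fun m σ => ENNReal.ofReal Λ * (ENNReal.ofReal (len m ^ γ *
      Kn d γ (bt b ε) (co m σ)) * (if (v - m, v + hh σ m) ∈ RS v then 0 else
        ENNReal.ofReal (Wp p (v - m) * V (v + hh σ m))))) = ENNReal.ofReal Λ * XE := by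
    rw [csI_const ENNReal.ofReal_ne_top, hXE]
    congr 1
    exact sw hd γ hbm hbd hε mW W0 mV V0 (measurableSet_RS v) v
  have r5 : csI (fun m σ => ENNReal.ofReal (Λ * (K₃ * (1 + Γ))) * ENNReal.ofReal (len m ^ γ *
      Wp p (v - m) * (Kn d γ (bt b ε) (co m σ) * (Wp (p + 2) v *
        (min 1 (len (hh σ m)) ^ α + (1 - co m σ ^ ((d : ℝ) + γ))))))) =
      ENNReal.ofReal (Λ * (K₃ * (1 + Γ))) * Y := by
    rw [csI_const ENNReal.ofReal_ne_top, hY]
    congr 1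
    exact csI_pull (a := fun m => len m ^ γ * Wp p (v - m))
      (fun m => mul_nonneg (hl m) (W0 _)) (fun m σ => Kn d γ (bt b ε) (co m σ) *
        (Wp (p + 2) v * (min 1 (len (hh σ m)) ^ α + (1 - co m σ ^ ((d : ℝ) + γ)))))
  -- measurability
  have m3 : Measurable fun q : Vec d × Vec d => ENNReal.ofReal Λ * ENNReal.ofReal (len q.1 ^ γ *
      U (v - q.1) * (Kn d γ (bt b ε) (co q.1 q.2) * Wp p (v + hh q.2 q.1))) :=
    ((((cs_mL γ).mul (mU.comp (cs_mz v))).mul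
      ((cs_mK γ hbm ε).mul (mW.comp (cs_mh v)))).ennreal_ofReal).const_mul _
  have m4 : Measurable fun q : Vec d × Vec d => ENNReal.ofReal Λ * (ENNReal.ofReal (len q.1 ^ γ *
      Kn d γ (bt b ε) (co q.1 q.2)) * (if (v - q.1, v + hh q.2 q.1) ∈ RS v then 0 else
        ENNReal.ofReal (Wp p (v - q.1) * V (v + hh q.2 q.1)))) := by
    refine Measurable.const_mul ?_ _
    refine Measurable.mul ((cs_mL γ).mul (cs_mK γ hbm ε)).ennreal_ofReal ?_
    refine Measurable.ite ?_ measurable_const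
      ((mW.comp (cs_mz v)).mul (mV.comp (cs_mh v))).ennreal_ofReal
    exact ((cs_mz v).prodMk (cs_mh v)) (measurableSet_RS v)
  -- the integrated inequality
  have main : Gn γ b ε A v + (Ls γ b ε B v + ENNReal.ofReal Λ * Bq) ≤
      Gn γ b ε B v + (Ls γ b ε A v + (ENNReal.ofReal Λ * XH + (ENNReal.ofReal Λ * XE +
        ENNReal.ofReal (Λ * (K₃ * (1 + Γ))) * Y))) := by
    rw [← t1, ← t2, ← t3, ← r1, ← r2, ← r3, ← r4, ← r5,
      ← csI_add (cs_mB γ hbm ε mB v (B v)), ← csI_add (cs_mA γ hbm ε mA v),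
      ← csI_add m4, ← csI_add m3, ← csI_add (cs_mB γ hbm ε mA v (A v)),
      ← csI_add (cs_mA γ hbm ε mB v)]
    refine csI_mono fun m σ hσ hmσ => ?_
    have hk := csKn_nonneg (γ := γ) hbd hε hσ hmσ
    have hc := co_pos hmσ
    have hc1 := co_le_one (m := m) hσ
    have hq0 : 0 ≤ co m σ ^ ((d : ℝ) + γ) := Real.rpow_nonneg hc.le _
    have hq1 : co m σ ^ ((d : ℝ) + γ) ≤ 1 := Real.rpow_le_one hc.le hc1 hE0
    have h3 := hP (v - m) (hh σ m) _ hq0 hq1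
    have hlk : 0 ≤ len m ^ γ * Kn d γ (bt b ε) (co m σ) := mul_nonneg (hl m) hk
    have h4 := mul_le_mul_of_nonneg_left h3 hlk
    have e4 : ENNReal.ofReal Λ * (ENNReal.ofReal (len m ^ γ * Kn d γ (bt b ε) (co m σ)) *
        (if (v - m, v + hh σ m) ∈ RS v then 0 else
          ENNReal.ofReal (Wp p (v - m) * V (v + hh σ m)))) =
        ENNReal.ofReal (len m ^ γ * Kn d γ (bt b ε) (co m σ) *
          (if (v - m, v + hh σ m) ∈ RS v then 0 else
            Λ * (Wp p (v - m) * V (v + hh σ m)))) := by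
      by_cases hmem : (v - m, v + hh σ m) ∈ RS v
      · rw [if_pos hmem, if_pos hmem, mul_zero, mul_zero, mul_zero, ENNReal.ofReal_zero]
      · rw [if_neg hmem, if_neg hmem, ← ENNReal.ofReal_mul hlk, ← ENNReal.ofReal_mul hΛ]
        congr 1
        ring
    rw [e4, ← ENNReal.ofReal_mul hΛ, ← ENNReal.ofReal_mul (by positivity)]
    refine cs_pt ?_ ?_ ?_ ?_
    · exact mul_nonneg (mul_nonneg (hl m) (A0 _)) (mul_nonneg hk (A0 _))
    · exact mul_nonneg (mul_nonneg (mul_nonneg (hl m) (B0 _)) (B0 _)) (mul_nonneg hk hq0)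
    · exact mul_nonneg (mul_nonneg (mul_nonneg (hl m) (U0 _)) (mul_nonneg hΛ Wv.le))
        (mul_nonneg hk hq0)
    · calc _ = len m ^ γ * Kn d γ (bt b ε) (co m σ) * (A (v - m) * A (v + hh σ m) +
            co m σ ^ ((d : ℝ) + γ) * (B (v - m) * B v) + U (v - m) *
              (co m σ ^ ((d : ℝ) + γ) * (Λ * Wp p v))) := by ring
        _ ≤ _ := h4
        _ = _ := by ring
  have hI' : XH + XE ≤ Bq + ENNReal.ofReal (K₁ * Wp p v) := (le_lintegral_add _ _).trans hI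
  have hR' : Y ≤ ENNReal.ofReal (K₂ * Wp p v) := hR
  obtain ⟨gA, lA, eA⟩ := cut_eq HL.H nA A0 hε v
  obtain ⟨gB, lB, eB⟩ := cut_eq HL.H nB B0 hε v
  -- finiteness
  have hfin : ENNReal.ofReal Λ * Bq ≠ ⊤ := by
    rcases hΛ.eq_or_lt with h | h
    · rw [← h, ENNReal.ofReal_zero, zero_mul]
      exact ENNReal.zero_ne_top
    have nU' : Nice fun z => U z + A z := cs_nice_add nU nA
    have U0' : ∀ z : Vec d, 0 ≤ U z + A z := fun z => add_nonneg (U0 z) (A0 z)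
    have hUv : 0 < U v + A v := by
      have h4 := B0 v
      have h5 := mul_pos h Wv
      have h6 := U0 v
      linarith
    obtain ⟨-, lU, -⟩ := cut_eq HL.H nU' U0' hε v
    have hBle : Bq ≤ ENNReal.ofReal (Wp p v / (U v + A v)) *
        Ls γ b ε (fun z => U z + A z) v := by
      rw [loss_eq hd γ hbm hbd hε nU'.cont.measurable U0' v,
        ← lintegral_const_mul' _ _ ENNReal.ofReal_ne_top, hB]
      refine lintegral_mono fun m => ?_
      have e5 : ENNReal.ofReal (Wp p v) =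
          ENNReal.ofReal (Wp p v / (U v + A v)) * ENNReal.ofReal (U v + A v) := by
        rw [← ENNReal.ofReal_mul (by positivity), div_mul_cancel₀ _ hUv.ne']
      have h6 : ENNReal.ofReal (len m ^ γ * U (v - m)) ≤
          ENNReal.ofReal (len m ^ γ * (U (v - m) + A (v - m))) :=
        ENNReal.ofReal_le_ofReal (mul_le_mul_of_nonneg_left (by linarith [A0 (v - m)]) (hl m))
      calc ENNReal.ofReal (len m ^ γ * U (v - m)) *
            (ENNReal.ofReal (Wp p v) * BB b ε (dir m))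
          ≤ ENNReal.ofReal (len m ^ γ * (U (v - m) + A (v - m))) *
            (ENNReal.ofReal (Wp p v) * BB b ε (dir m)) := mul_le_mul_left h6 _
        _ = _ := by rw [e5]; ring
    refine ENNReal.mul_ne_top ENNReal.ofReal_ne_top (ne_top_of_le_ne_top ?_ hBle)
    exact ENNReal.mul_ne_top ENNReal.ofReal_ne_top lU
  have hS0 : 0 ≤ Λ * (K₁ * Wp p v) + Λ * (K₃ * (1 + Γ)) * (K₂ * Wp p v) := by
    have := Wv.le
    positivity
  have key : Gn γ b ε A v + Ls γ b ε B v ≤ Gn γ b ε B v + Ls γ b ε A v +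
      ENNReal.ofReal (Λ * (K₁ * Wp p v) + Λ * (K₃ * (1 + Γ)) * (K₂ * Wp p v)) := by
    rw [← ENNReal.add_le_add_iff_right hfin]
    calc Gn γ b ε A v + Ls γ b ε B v + ENNReal.ofReal Λ * Bq
        = Gn γ b ε A v + (Ls γ b ε B v + ENNReal.ofReal Λ * Bq) := add_assoc _ _ _
      _ ≤ Gn γ b ε B v + (Ls γ b ε A v + (ENNReal.ofReal Λ * XH + (ENNReal.ofReal Λ * XE +
          ENNReal.ofReal (Λ * (K₃ * (1 + Γ))) * Y))) := main
      _ = Gn γ b ε B v + Ls γ b ε A v + (ENNReal.ofReal Λ * (XH + XE) +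
          ENNReal.ofReal (Λ * (K₃ * (1 + Γ))) * Y) := by ring
      _ ≤ Gn γ b ε B v + Ls γ b ε A v + (ENNReal.ofReal Λ * (Bq + ENNReal.ofReal (K₁ * Wp p v)) +
          ENNReal.ofReal (Λ * (K₃ * (1 + Γ))) * ENNReal.ofReal (K₂ * Wp p v)) := by
          gcongr
      _ = Gn γ b ε B v + Ls γ b ε A v + (ENNReal.ofReal Λ * ENNReal.ofReal (K₁ * Wp p v) +
          ENNReal.ofReal (Λ * (K₃ * (1 + Γ))) * ENNReal.ofReal (K₂ * Wp p v)) +
          ENNReal.ofReal Λ * Bq := by ring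
      _ = _ := by
          rw [← ENNReal.ofReal_mul hΛ, ← ENNReal.ofReal_mul (by positivity),
            ← ENNReal.ofReal_add (by positivity) (by positivity)]
  have key2 := ENNReal.toReal_mono (ENNReal.add_ne_top.2 ⟨ENNReal.add_ne_top.2 ⟨gB, lA⟩,
    ENNReal.ofReal_ne_top⟩) key
  rw [ENNReal.toReal_add gA lB, ENNReal.toReal_add (ENNReal.add_ne_top.2 ⟨gB, lA⟩)
    ENNReal.ofReal_ne_top, ENNReal.toReal_add gB lA, ENNReal.toReal_ofReal hS0] at key2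
  rw [eA, eB]
  have h7 : Λ * (K₁ * Wp p v) + Λ * (K₃ * (1 + Γ)) * (K₂ * Wp p v) ≤
      (K₁ + K₂ * K₃) * (1 + Γ) * (Λ * Wp p v) := by
    have h8 : 0 ≤ K₁ * Γ * (Λ * Wp p v) := by
      have := Wv.le
      positivity
    nlinarith
  linarith


theorem cutS (HL : HypL d γ s b C Ca cb) (h0 : 0 ≤ γ) (hs : 2 * s < 1) {α : ℝ} (h1 : 2 * s < α)
    (h2 : α ≤ 1) {p : ℕ} (hp : d + 10 ≤ p) (Cl : ℕ → ℝ) (R₁ : ℝ) {m₁ : ℝ} (hm : 0 < m₁) :
    ∃ ε₁ > 0, ∃ K : ℝ, 0 ≤ K ∧ ∀ (Γ Λ : ℝ) (F G : Vec d → ℝ), TS Cl p α Γ Λ F G →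
      m₁ ≤ ∫ z in {z : Vec d | nsq z ≤ R₁ ^ 2}, G z → ∫ z, |F z - G z| ≤ ε₁ →
      ∀ ε : ℝ, 0 < ε → ε ≤ 1 / 64 → ∀ v : Vec d,
      (G v - F v = Λ * Wp p v →
        boltzCut γ b ε G v - boltzCut γ b ε F v ≤ K * (1 + Γ) * (Λ * Wp p v)) ∧
      (F v - G v = Λ * Wp p v →
        boltzCut γ b ε F v - boltzCut γ b ε G v ≤ K * (1 + Γ) * (Λ * Wp p v)) := by
  classical
  obtain ⟨ε₁, hε₁, K₁, hK₁, hI⟩ := intUV HL h0 hs hp Cl R₁ hm
  obtain ⟨K₂, hK₂, hR⟩ := intR HL.H h0 h1 h2 hp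
  obtain ⟨K₃, hK₃, hP⟩ := ptS (d := d) Cl p
  have hα : 0 < α := by linarith [HL.H.hs]
  refine ⟨ε₁, hε₁, K₁ + K₂ * K₃, by positivity, fun Γ Λ F G ht hmG hdF ε hε hε1 v => ?_⟩
  have hII := hI G F ht.hG ht.hF v hmG hdF ε hε hε1
  exact ⟨fun hv => cs_core HL h0 hK₁ hK₂ hK₃ ht.gam ht.lam ht.hG.nice ht.hG.nonneg ht.hF.nice
      ht.hF.nonneg ht.hG.nice ht.hG.nonneg ht.hF.nice.cont.measurable ht.hF.nonneg hε v hv hII
      (hR v ε hε) fun z h q hq0 hq1 => (hP α Γ Λ F G hα h2 ht v z h q hq0 hq1).1 hv,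
    fun hv => cs_core HL h0 hK₁ hK₂ hK₃ ht.gam ht.lam ht.hF.nice ht.hF.nonneg ht.hG.nice
      ht.hG.nonneg ht.hG.nice ht.hG.nonneg ht.hF.nice.cont.measurable ht.hF.nonneg hε v hv hII
      (hR v ε hε) fun z h q hq0 hq1 => (hP α Γ Λ F G hα h2 ht v z h q hq0 hq1).2 hv⟩

theorem opS (HL : HypL d γ s b C Ca cb) (h0 : 0 ≤ γ) (hs : 2 * s < 1) {α : ℝ} (h1 : 2 * s < α)
    (h2 : α ≤ 1) {p : ℕ} (hp : d + 10 ≤ p) (Cl : ℕ → ℝ) (R₁ : ℝ) {m₁ : ℝ} (hm : 0 < m₁) :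
    ∃ ε₁ > 0, ∃ K : ℝ, 0 ≤ K ∧ ∀ (Γ Λ : ℝ) (F G : Vec d → ℝ), TS Cl p α Γ Λ F G →
      m₁ ≤ ∫ z in {z : Vec d | nsq z ≤ R₁ ^ 2}, G z → ∫ z, |F z - G z| ≤ ε₁ → ∀ v : Vec d,
      (G v - F v = Λ * Wp p v →
        boltzQ γ b G v - boltzQ γ b F v ≤ K * (1 + Γ) * (Λ * Wp p v)) ∧
      (F v - G v = Λ * Wp p v →
        boltzQ γ b F v - boltzQ γ b G v ≤ K * (1 + Γ) * (Λ * Wp p v)) := by
  obtain ⟨ε₁, hε₁, K, hK, h⟩ := cutS HL h0 hs h1 h2 hp Cl R₁ hm
  refine ⟨ε₁, hε₁, K, hK, fun Γ Λ F G ht hmG hdF v => ⟨fun hv => ?_, fun hv => ?_⟩⟩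
  · refine le_of_tendsto ((boltz_tendsto HL.H ht.hG.nice v).sub (boltz_tendsto HL.H ht.hF.nice v)) ?_
    filter_upwards [Ioo_mem_nhdsGT (show (0 : ℝ) < 1 / 64 by norm_num)] with ε hε
    exact (h Γ Λ F G ht hmG hdF ε hε.1 hε.2.le v).1 hv
  · refine le_of_tendsto ((boltz_tendsto HL.H ht.hF.nice v).sub (boltz_tendsto HL.H ht.hG.nice v)) ?_
    filter_upwards [Ioo_mem_nhdsGT (show (0 : ℝ) < 1 / 64 by norm_num)] with ε hε
    exact (h Γ Λ F G ht hmG hdF ε hε.1 hε.2.le v).2 hv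

end Pool.Agent.H48.PS
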