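import Pool.Agent.H48.PR.Defs

/-!
# Stability under perturbations without symmetry (MP_c15324_an): definitions

THEOREM S. `0 ≤ γ`, `2s < 1`, `γ + 2s ≤ 2`. Let `g` be a classical solution on `[0,T₁)`, `T₀ < T₁`, without vacuum and with Hoelder bounds in `v` of an order `α > 2s` with all weights on `(0,T₀]`. For all `B : ℕ → ℝ` there are `ε > 0`, `U` such that EVERY classical solution `f` on `[0,T)`,
`T ≤ T₀`, with `(1+|v|)^N f(0) ≤ B_N` and `|f(0) - g(0)| ≤ ε` satisfies `(1+|v|)^N f ≤ U_N` and has mass density `≥ m/2` on `[0,T)`. No symmetry of `f` is assumed.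

PROOF. `W = ⟨v⟩^(-2p)`, `p = d+10`, `D = f - g`; barrier `B₀ e^(K₁ t) W`, `B₀ e^(K₁ T₀) ≤ Λ₁` small. As long as `|D| ≤ Λ₁ W`, `f ≤ A₁ W`, so all decay constants of `f` are bounded (module Prop, maximum principle of the library). At a touching point with `±D(v) = Λ W(v)`:
`G(z)[G(v')-qG(v)] - F(z)[F(v')-qF(v)] = G(z)[D(v')-qD(v)] + D(z)[F(v')-qF(v)]` (`G = f`, `F = g`): the first term is `≤ Λ G(z)[W(v')-qW(v)]` (coefficient `G ≥ 0`), the second one is controlled by the Hoelder bounds of `F`, except for pairs with slow `v'` (outside `RS v`), where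
`D(z)F(v') ≤ Λ W(z)F(v')` is exchanged and absorbed by the slack (`F ≤ G + |D|`, `|D|` has small mass). Result: `±(Q(G)-Q(F))(v) ≤ K(1+Γ) Λ W(v)`, contradiction for `K₁` large.
-/

set_option autoImplicit false

open MeasureTheory Set Filter Topology Pool.Agent.H25.Kin Pool.Agent.H48.PL Pool.Agent.H48.PD
open Pool.Agent.H82.BK Pool.Agent.H82.CM Pool.Agent.H48.PR

namespace Pool.Agent.H48.PS

variable {d : ℕ}

/-- `|G - F| ≤ Λ W` and `F` is Hoelder continuous with weights -/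
structure TS (Cl : ℕ → ℝ) (p : ℕ) (α Γ Λ : ℝ) (F G : Vec d → ℝ) : Prop where
  hF : FB Cl F
  hG : FB Cl G
  gam : 0 ≤ Γ
  lam : 0 ≤ Λ
  dif : ∀ u, |G u - F u| ≤ Λ * Wp p u
  hol : ∀ v h, |F (v + h) - F v| ≤ Γ * min 1 (len h) ^ α * (Wp (p + 2) v + Wp (p + 2) (v + h))

end Pool.Agent.H48.PS
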